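import Mathlib

set_option autoImplicit false

/-!
# Heisenberg nilflows and their time-changes: definitions
-/

open MeasureTheory Set Filter Topology
open scoped ContDiff

namespace Pool.Agent.TH286.NF

/-- The Heisenberg group: the upper triangular unipotent matrices with entries `x, y` above the diagonal
and `z` in the corner. -/
@[ext] structure Heis where
  x : ℝ
  y : ℝ
  z : ℝ

namespace Heis

/-- the coordinates -/
def coord (g : Heis) : ℝ × ℝ × ℝ := (g.x, g.y, g.z)

instance : TopologicalSpace Heis := TopologicalSpace.induced coord inferInstance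

instance : MeasurableSpace Heis := MeasurableSpace.comap coord inferInstance

/-- matrix multiplication -/
instance : Mul Heis := ⟨fun g h => ⟨g.x + h.x, g.y + h.y, g.z + h.z + g.x * h.y⟩⟩

instance : One Heis := ⟨⟨0, 0, 0⟩⟩

instance : Inv Heis := ⟨fun g => ⟨-g.x, -g.y, -g.z + g.x * g.y⟩⟩

theorem mul_def (g h : Heis) : g * h = ⟨g.x + h.x, g.y + h.y, g.z + h.z + g.x * h.y⟩ := rfl

theorem one_def : (1 : Heis) = ⟨0, 0, 0⟩ := rfl

theorem inv_def (g : Heis) : g⁻¹ = ⟨-g.x, -g.y, -g.z + g.x * g.y⟩ := rfl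

instance : Group Heis :=
  Group.ofLeftAxioms
    (fun a b c => by
      ext <;> simp only [mul_def] <;> ring)
    (fun a => by
      ext <;> simp [mul_def, one_def])
    (fun a => by
      ext <;> simp only [mul_def, one_def, inv_def] <;> ring)

/-- the exponential of the strictly upper triangular matrix with entries `a`, `b` above the diagonal and
`c` in the corner -/
noncomputable def exp (a b c : ℝ) : Heis := ⟨a, b, c + a * b / 2⟩

end Heis

/-- the lattice of integer matrices -/
def Gam : Subgroup Heis where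
  carrier := {g | ∃ a b c : ℤ, g = ⟨a, b, c⟩}
  mul_mem' := by
    rintro _ _ ⟨a, b, c, rfl⟩ ⟨a', b', c', rfl⟩
    refine ⟨a + a', b + b', c + c' + a * b', ?_⟩
    ext <;> simp [Heis.mul_def]
  one_mem' := ⟨0, 0, 0, by ext <;> simp [Heis.one_def]⟩
  inv_mem' := by
    rintro _ ⟨a, b, c, rfl⟩
    refine ⟨-a, -b, -c + a * b, ?_⟩
    ext <;> simp [Heis.inv_def]

/-- the Heisenberg nilmanifold: the space of right cosets of the lattice -/
def Nil : Type := Quotient (QuotientGroup.rightRel Gam)

namespace Nil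

/-- the coset of `g` -/
def of (g : Heis) : Nil := Quotient.mk (QuotientGroup.rightRel Gam) g

instance : TopologicalSpace Nil :=
  inferInstanceAs (TopologicalSpace (Quotient (QuotientGroup.rightRel Gam)))

/-- a set of cosets is measurable when the union of its members is a Borel set -/
instance : MeasurableSpace Nil :=
  inferInstanceAs (MeasurableSpace (Quotient (QuotientGroup.rightRel Gam)))

end Nil

/-- normalised Haar measure of the nilmanifold: the image of Lebesgue measure of the unit cube, which is a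
fundamental domain -/
noncomputable def haar : Measure Nil :=
  Measure.map (fun p : ℝ × ℝ × ℝ => Nil.of (Heis.mk p.1 p.2.1 p.2.2))
    (volume.restrict (Ioc (0 : ℝ) 1 ×ˢ (Ioc (0 : ℝ) 1 ×ˢ Ioc (0 : ℝ) 1)))

/-- the nilflow generated by the element `X` of the Lie algebra with entries `a`, `b`, `c`:
the coset of `g` goes to the coset of `g exp(tX)` -/
noncomputable def nilflow (a b c : ℝ) (t : ℝ) : Nil → Nil :=
  Quotient.map (fun g : Heis => g * Heis.exp (t * a) (t * b) (t * c)) (by
    intro g h hgh
    have h1 : h * g⁻¹ ∈ Gam := QuotientGroup.rightRel_apply.1 hgh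
    refine QuotientGroup.rightRel_apply.2 ?_
    simpa [mul_assoc] using h1)

/-- `haar` is invariant under the flow, and it is the only invariant probability measure -/
def UniquelyErgodic (φ : ℝ → Nil → Nil) : Prop :=
  (∀ t, MeasurePreserving (φ t) haar haar) ∧
    ∀ m : Measure Nil, IsProbabilityMeasure m → (∀ t, MeasurePreserving (φ t) m m) → m = haar

/-- the element of the Lie algebra with entries `a`, `b`, `c` is not central -/
def NotCentral (a b c : ℝ) : Prop := ∃ g : Heis, g * Heis.exp a b c ≠ Heis.exp a b c * g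

/-- `C^∞` functions on the nilmanifold -/
def Smooth (α : Nil → ℝ) : Prop :=
  ContDiff ℝ ∞ (fun p : ℝ × ℝ × ℝ => α (Nil.of (Heis.mk p.1 p.2.1 p.2.2)))

/-- `ψ` is the time-change of `φ` given by `α`: the point reached by `φ` at time `t` is reached by `ψ` at
time `∫_0^t α(φ_s x) ds`, that is, `ψ` is generated by `X/α` -/
def IsTimeChange (φ ψ : ℝ → Nil → Nil) (α : Nil → ℝ) : Prop :=
  ∀ (x : Nil) (t : ℝ), ψ (∫ s in (0 : ℝ)..t, α (φ s x)) x = φ t x

/-- `ψ` is a flow -/
def IsFlow (ψ : ℝ → Nil → Nil) : Prop := (∀ x, ψ 0 x = x) ∧ ∀ s t x, ψ (s + t) x = ψ s (ψ t x)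

/-- `α` is measurably cohomologous to a constant -/
def MeasurablyTrivial (φ : ℝ → Nil → Nil) (α : Nil → ℝ) : Prop :=
  ∃ (c : ℝ) (u : Nil → ℝ), Measurable u ∧
    ∀ t, ∀ᵐ x ∂haar, u (φ t x) - u x = ∫ s in (0 : ℝ)..t, (α (φ s x) - c)

/-- the probability measure proportional to `α` times Haar measure -/
noncomputable def weighted (α : Nil → ℝ) : Measure Nil :=
  (∫⁻ x, ENNReal.ofReal (α x) ∂haar)⁻¹ • haar.withDensity (fun x => ENNReal.ofReal (α x))

/-- weak mixing of a flow -/
def WeaklyMixing (ν : Measure Nil) (ψ : ℝ → Nil → Nil) : Prop :=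
  ∀ A B : Set Nil, MeasurableSet A → MeasurableSet B →
    Tendsto (fun t : ℝ => (1 / t) * ∫ s in (0 : ℝ)..t, |ν.real (ψ s '' A ∩ B) - ν.real A * ν.real B|)
      atTop (𝓝 0)

/-- mixing of a flow -/
def Mixing (ν : Measure Nil) (ψ : ℝ → Nil → Nil) : Prop :=
  ∀ A B : Set Nil, MeasurableSet A → MeasurableSet B →
    Tendsto (fun t : ℝ => ν.real (ψ t '' A ∩ B)) atTop (𝓝 (ν.real A * ν.real B))

end Pool.Agent.TH286.NF
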