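import Mathlib
import Pool.Agent.TH286.NF.Defs

set_option autoImplicit false

/-!
Coordinates on the nilmanifold.
-/

open MeasureTheory Set Filter Topology
open scoped ContDiff

namespace Pool.Agent.TH286.NF

abbrev UC : Type := UnitAddCircle

/-- the three dimensional torus -/
abbrev T3 : Type := UC × UC × UC

theorem coe_int_zero (n : ℤ) : ((n : ℝ) : UC) = 0 := by
  rw [AddCircle.coe_eq_zero_iff]
  exact ⟨n, by simp⟩

theorem coe_add_int (x : ℝ) (n : ℤ) : ((x + n : ℝ) : UC) = x := by
  rw [AddCircle.coe_add, coe_int_zero, add_zero]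

theorem coe_eq_iff (x y : ℝ) : ((x : ℝ) : UC) = (y : ℝ) ↔ ∃ n : ℤ, y = x + n := by
  constructor
  · intro h
    have h1 : ((y - x : ℝ) : UC) = 0 := by
      rw [AddCircle.coe_sub, h, sub_self]
    obtain ⟨n, hn⟩ := (AddCircle.coe_eq_zero_iff _).1 h1
    refine ⟨n, ?_⟩
    simp at hn
    linarith
  · rintro ⟨n, rfl⟩
    exact (coe_add_int x n).symm

/-- the representative in `[0, 1)` -/
noncomputable def rep (p : UC) : ℝ := (AddCircle.equivIco 1 0 p : ℝ)

theorem rep_coe (x : ℝ) : rep (x : UC) = Int.fract x := by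
  have := AddCircle.coe_equivIco_mk_apply (p := (1 : ℝ)) x
  unfold rep
  rw [div_one, mul_one] at this
  exact this

theorem coe_rep (p : UC) : ((rep p : ℝ) : UC) = p := AddCircle.coe_equivIco

theorem rep_mem (p : UC) : rep p ∈ Ico (0 : ℝ) 1 := by
  have := (AddCircle.equivIco (1 : ℝ) 0 p).2
  exact ⟨this.1, lt_of_lt_of_eq this.2 (zero_add 1)⟩

theorem floor_rep (p : UC) : ⌊rep p⌋ = 0 := by
  rw [Int.floor_eq_zero_iff]
  exact rep_mem p

theorem rep_meas : Measurable rep := by
  refine measurable_from_quotient.2 ?_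
  have : (rep ∘ (Quotient.mk'' : ℝ → UC)) = Int.fract := by
    funext x
    exact rep_coe x
  show Measurable (rep ∘ (Quotient.mk'' : ℝ → UC))
  rw [this]
  exact measurable_fract

/-- the coordinates of a matrix -/
noncomputable def kap0 (g : Heis) : T3 :=
  ((g.x : UC), (g.y : UC), ((g.z - ⌊g.x⌋ * g.y : ℝ) : UC))

theorem kap0_rel {g h : Heis} : h * g⁻¹ ∈ Gam ↔ kap0 g = kap0 h := by
  constructor
  · rintro ⟨a, b, c, habc⟩
    have h1 : h = (⟨a, b, c⟩ : Heis) * g := by
      rw [← habc, inv_mul_cancel_right]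
    subst h1
    simp only [kap0, Heis.mul_def]
    refine Prod.ext ?_ (Prod.ext ?_ ?_)
    · show ((g.x : ℝ) : UC) = ((a + g.x : ℝ) : UC)
      rw [add_comm, coe_add_int]
    · show ((g.y : ℝ) : UC) = ((b + g.y : ℝ) : UC)
      rw [add_comm, coe_add_int]
    · show ((g.z - ⌊g.x⌋ * g.y : ℝ) : UC) = ((c + g.z + a * g.y - ⌊(a : ℝ) + g.x⌋ * (b + g.y) : ℝ) : UC)
      rw [coe_eq_iff]
      refine ⟨c - a * b - ⌊g.x⌋ * b, ?_⟩
      rw [Int.floor_intCast_add]
      push_cast
      ring
  · intro h1
    simp only [kap0, Prod.mk.injEq] at h1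
    obtain ⟨hx, hy, hz⟩ := h1
    rw [coe_eq_iff] at hx hy hz
    obtain ⟨a, ha⟩ := hx
    obtain ⟨b, hb⟩ := hy
    obtain ⟨c, hc⟩ := hz
    refine ⟨a, b, c + (⌊g.x⌋ + a) * b, ?_⟩
    rw [mul_inv_eq_iff_eq_mul]
    ext
    · simp only [Heis.mul_def]
      linarith
    · simp only [Heis.mul_def]
      linarith
    · simp only [Heis.mul_def]
      rw [ha, hb, Int.floor_add_intCast] at hc
      push_cast at hc ⊢
      linarith

/-- the coordinates of a coset -/
noncomputable def kap : Nil → T3 :=
  Quotient.lift kap0 (by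
    intro g h hgh
    exact kap0_rel.1 (QuotientGroup.rightRel_apply.1 hgh))

theorem kap_of (g : Heis) : kap (Nil.of g) = kap0 g := rfl

theorem of_surj : Function.Surjective Nil.of := Quotient.mk_surjective

theorem kap_inj : Function.Injective kap := by
  intro p q h
  obtain ⟨g, rfl⟩ := of_surj p
  obtain ⟨g', rfl⟩ := of_surj q
  exact Quotient.sound (QuotientGroup.rightRel_apply.2 (kap0_rel.2 h))

theorem of_eq {g h : Heis} : Nil.of g = Nil.of h ↔ kap0 g = kap0 h :=
  ⟨fun e => by rw [← kap_of, ← kap_of, e], fun e => kap_inj e⟩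

/-- the inverse -/
noncomputable def lam (p : T3) : Nil := Nil.of ⟨rep p.1, rep p.2.1, rep p.2.2⟩

theorem kap_lam (p : T3) : kap (lam p) = p := by
  show kap0 _ = p
  simp only [kap0, floor_rep]
  simp [coe_rep]

theorem lam_kap (p : Nil) : lam (kap p) = p := kap_inj (kap_lam _)

theorem coord_meas : Measurable Heis.coord := fun _ hs => ⟨_, hs, rfl⟩

theorem x_meas : Measurable Heis.x := measurable_fst.comp coord_meas

theorem y_meas : Measurable Heis.y := (measurable_fst.comp measurable_snd).comp coord_meas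

theorem z_meas : Measurable Heis.z := (measurable_snd.comp measurable_snd).comp coord_meas

theorem meas_heis {Z : Type*} [MeasurableSpace Z] (f : Z → Heis) (hx : Measurable (fun z => (f z).x))
    (hy : Measurable (fun z => (f z).y)) (hz : Measurable (fun z => (f z).z)) : Measurable f := by
  rw [measurable_comap_iff]
  exact hx.prodMk (hy.prodMk hz)

theorem coe_meas : Measurable (fun x : ℝ => (x : UC)) := AddCircle.measurable_mk'

theorem kap0_meas : Measurable kap0 := by
  refine (coe_meas.comp x_meas).prodMk ((coe_meas.comp y_meas).prodMk (coe_meas.comp ?_))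
  exact z_meas.sub (((measurable_from_top (f := fun n : ℤ => (n : ℝ))).comp
    (Int.measurable_floor.comp x_meas)).mul y_meas)

theorem of_meas : Measurable Nil.of := measurable_quotient_mk''

theorem meas_nil {Z : Type*} [MeasurableSpace Z] (f : Nil → Z) (hf : Measurable (fun g => f (Nil.of g))) :
    Measurable f := measurable_from_quotient.2 hf

theorem kap_meas : Measurable kap := meas_nil _ kap0_meas

theorem lam_meas : Measurable lam :=
  of_meas.comp (meas_heis _ (rep_meas.comp measurable_fst) (rep_meas.comp (measurable_fst.comp measurable_snd))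
    (rep_meas.comp (measurable_snd.comp measurable_snd)))

/-- coordinates as a measurable equivalence -/
noncomputable def kapE : Nil ≃ᵐ T3 where
  toFun := kap
  invFun := lam
  left_inv := lam_kap
  right_inv := kap_lam
  measurable_toFun := kap_meas
  measurable_invFun := lam_meas

theorem mk_mp : MeasurePreserving (fun x : ℝ => (x : UC)) (volume.restrict (Ioc (0 : ℝ) 1)) volume := by
  have := UnitAddCircle.measurePreserving_mk 0
  rw [zero_add] at this
  exact this

/-- Haar measure is Lebesgue measure in coordinates -/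
theorem kap_mp : MeasurePreserving kap haar volume := by
  refine ⟨kap_meas, ?_⟩
  have hm : Measurable (fun p : ℝ × ℝ × ℝ => Nil.of (Heis.mk p.1 p.2.1 p.2.2)) :=
    of_meas.comp (meas_heis _ measurable_fst (measurable_fst.comp measurable_snd)
      (measurable_snd.comp measurable_snd))
  unfold haar
  rw [Measure.map_map kap_meas hm]
  have h1 : (volume : Measure (ℝ × ℝ × ℝ)).restrict (Ioc (0 : ℝ) 1 ×ˢ (Ioc (0 : ℝ) 1 ×ˢ Ioc (0 : ℝ) 1)) =
      (volume.restrict (Ioc (0 : ℝ) 1)).prod ((volume.restrict (Ioc (0 : ℝ) 1)).prod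
        (volume.restrict (Ioc (0 : ℝ) 1))) := by
    rw [Measure.prod_restrict, Measure.prod_restrict]
    rfl
  rw [h1]
  have h2 : MeasurePreserving (Prod.map (fun x : ℝ => (x : UC)) (Prod.map (fun x : ℝ => (x : UC))
      (fun x : ℝ => (x : UC)))) ((volume.restrict (Ioc (0 : ℝ) 1)).prod ((volume.restrict (Ioc (0 : ℝ) 1)).prod
        (volume.restrict (Ioc (0 : ℝ) 1)))) (volume : Measure T3) := mk_mp.prod (mk_mp.prod mk_mp)
  rw [← h2.map_eq]
  apply Measure.map_congr
  have h3 : ∀ᵐ p : ℝ × ℝ × ℝ ∂((volume.restrict (Ioc (0 : ℝ) 1)).prod ((volume.restrict (Ioc (0 : ℝ) 1)).prod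
        (volume.restrict (Ioc (0 : ℝ) 1)))), p.1 ∈ Ico (0 : ℝ) 1 := by
    have h4 : ∀ᵐ x ∂(volume.restrict (Ioc (0 : ℝ) 1)), x ∈ Ico (0 : ℝ) 1 := by
      rw [← Measure.restrict_congr_set Ico_ae_eq_Ioc]
      exact ae_restrict_mem measurableSet_Ico
    exact Measure.quasiMeasurePreserving_fst.ae h4
  filter_upwards [h3] with p hp
  have h5 : ⌊p.1⌋ = 0 := Int.floor_eq_zero_iff.2 hp
  show kap0 ⟨p.1, p.2.1, p.2.2⟩ = _
  simp only [kap0, h5]
  simp [Prod.map]

instance : IsProbabilityMeasure (volume : Measure UC) := ⟨by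
  have := AddCircle.measure_univ (1 : ℝ)
  rw [ENNReal.ofReal_one] at this
  exact this⟩

instance : IsProbabilityMeasure (volume : Measure (UC × UC)) := by
  show IsProbabilityMeasure ((volume : Measure UC).prod volume)
  infer_instance

instance : IsProbabilityMeasure (volume : Measure T3) := by
  show IsProbabilityMeasure ((volume : Measure UC).prod (volume : Measure (UC × UC)))
  infer_instance

instance : IsProbabilityMeasure haar := by
  have h : haar = Measure.map lam volume := by
    rw [← kap_mp.map_eq, Measure.map_map lam_meas kap_meas]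
    have : lam ∘ kap = id := funext lam_kap
    rw [this, Measure.map_id]
  rw [h]
  exact Measure.isProbabilityMeasure_map lam_meas.aemeasurable

theorem lam_mp : MeasurePreserving lam volume haar := by
  have h1 : MeasurePreserving kapE haar volume := kap_mp
  exact h1.symm kapE

end Pool.Agent.TH286.NF
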