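import Mathlib
import Pool.Agent.TH286.NF.Coord

set_option autoImplicit false

/-!
The one-dimensional profiles and the choice of the frequency.
-/

open MeasureTheory Set Filter Topology
open scoped ContDiff

namespace Pool.Agent.TH286.NF

/-! ### profiles -/

/-- the profile: equal to `0` where the cosine is nonpositive, and to `2π 4^N` where the cosine is at least
`2^(-N)` -/
noncomputable def HR (N : ℕ) (v : ℝ) : ℝ :=
  2 * Real.pi * 4 ^ N * Real.smoothTransition (2 ^ N * Real.cos (2 * Real.pi * v))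

theorem HR_smooth (N : ℕ) : ContDiff ℝ ∞ (HR N) := by
  unfold HR
  refine contDiff_const.mul (Real.smoothTransition.contDiff.comp (contDiff_const.mul ?_))
  exact Real.contDiff_cos.comp (contDiff_const.mul contDiff_id)

theorem HR_per (N : ℕ) (v : ℝ) (m : ℤ) : HR N (v + m) = HR N v := by
  unfold HR
  have h : Real.cos (2 * Real.pi * (v + m)) = Real.cos (2 * Real.pi * v) := by
    have : 2 * Real.pi * (v + m) = 2 * Real.pi * v + m * (2 * Real.pi) := by ring
    rw [this, Real.cos_add_int_mul_two_pi]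
  rw [h]

/-- its derivative -/
noncomputable def DR (N : ℕ) : ℝ → ℝ := deriv (HR N)

theorem DR_smooth (N : ℕ) : ContDiff ℝ ∞ (DR N) := (contDiff_infty_iff_deriv.1 (HR_smooth N)).2

theorem HR_deriv (N : ℕ) (v : ℝ) : HasDerivAt (HR N) (DR N v) v :=
  ((HR_smooth N).differentiable (by simp) v).hasDerivAt

theorem DR_per (N : ℕ) (v : ℝ) (m : ℤ) : DR N (v + m) = DR N v := by
  have h1 : HasDerivAt (fun w => HR N (w + m)) (DR N (v + m)) v := (HR_deriv N (v + m)).comp_add_const v m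
  have h2 : (fun w => HR N (w + m)) = HR N := funext fun w => HR_per N w m
  rw [h2] at h1
  exact h1.unique (HR_deriv N v)

theorem DR_bdd (N j : ℕ) : ∃ K : ℝ, 0 ≤ K ∧ ∀ v, ‖iteratedFDeriv ℝ j (DR N) v‖ ≤ K := by
  have hc : Continuous (fun v => ‖iteratedFDeriv ℝ j (DR N) v‖) :=
    ((DR_smooth N).continuous_iteratedFDeriv (by exact_mod_cast le_top)).norm
  have hp : Function.Periodic (fun v => ‖iteratedFDeriv ℝ j (DR N) v‖) 1 := by
    intro v
    show ‖iteratedFDeriv ℝ j (DR N) (v + 1)‖ = ‖iteratedFDeriv ℝ j (DR N) v‖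
    rw [← iteratedFDeriv_comp_add_right]
    congr 2
    funext w
    have := DR_per N w 1
    simpa using this
  obtain ⟨K, hK⟩ := (isCompact_Icc (a := (0 : ℝ)) (b := 1)).exists_bound_of_continuousOn hc.continuousOn
  refine ⟨max K 0, le_max_right _ _, fun v => ?_⟩
  obtain ⟨w, hw, hvw⟩ := hp.exists_mem_Ico₀ one_pos v
  rw [hvw]
  have := hK w ⟨hw.1, hw.2.le⟩
  rw [norm_norm] at this
  exact this.trans (le_max_left _ _)

/-- the linear form `q y - p x` -/
noncomputable def LL (q p : ℤ) : (ℝ × ℝ × ℝ) →L[ℝ] ℝ :=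
  (q : ℝ) • ((ContinuousLinearMap.fst ℝ ℝ ℝ).comp (ContinuousLinearMap.snd ℝ ℝ (ℝ × ℝ))) -
    (p : ℝ) • (ContinuousLinearMap.fst ℝ ℝ (ℝ × ℝ))

theorem LL_apply (q p : ℤ) (P : ℝ × ℝ × ℝ) : LL q p P = q * P.2.1 - p * P.1 := by
  simp [LL]

/-- `D(q y - p x)` as a function of three variables -/
noncomputable def FF (N : ℕ) (q p : ℤ) (P : ℝ × ℝ × ℝ) : ℝ := DR N (q * P.2.1 - p * P.1)

theorem FF_eq (N : ℕ) (q p : ℤ) : FF N q p = DR N ∘ LL q p := by
  funext P
  show _ = DR N (LL q p P)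
  rw [LL_apply]
  rfl

theorem FF_smooth (N : ℕ) (q p : ℤ) : ContDiff ℝ ∞ (FF N q p) := by
  rw [FF_eq]
  exact (DR_smooth N).comp (LL q p).contDiff

theorem FF_bdd1 (N : ℕ) (q p : ℤ) (j : ℕ) : ∃ K : ℝ, 0 ≤ K ∧ ∀ P, ‖iteratedFDeriv ℝ j (FF N q p) P‖ ≤ K := by
  obtain ⟨K, hK0, hK⟩ := DR_bdd N j
  refine ⟨K * ∏ _i : Fin j, ‖LL q p‖, by positivity, fun P => ?_⟩
  rw [FF_eq, (LL q p).iteratedFDeriv_comp_right (DR_smooth N) P (i := j) (by exact_mod_cast le_top)]
  refine (ContinuousMultilinearMap.norm_compContinuousLinearMap_le _ _).trans ?_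
  exact mul_le_mul_of_nonneg_right (hK _) (by positivity)

theorem FF_bdd (N : ℕ) (q p : ℤ) : ∃ K : ℝ, 0 ≤ K ∧ ∀ j ≤ N, ∀ P, ‖iteratedFDeriv ℝ j (FF N q p) P‖ ≤ K := by
  choose K hK0 hK using FF_bdd1 N q p
  refine ⟨∑ j ∈ Finset.range (N + 1), K j, Finset.sum_nonneg fun j _ => hK0 j, fun j hj P => ?_⟩
  exact (hK j P).trans (Finset.single_le_sum (f := K) (fun i _ => hK0 i) (Finset.mem_range.2 (by omega)))

/-- how close `qθ` has to be to `p` -/
theorem exists_delta : ∃ δ : ℕ → ℤ → ℤ → ℝ, ∀ N q p, 0 < δ N q p ∧ δ N q p ≤ 1 / 2 ^ N ∧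
    ∀ η : ℝ, |η| < δ N q p → ∀ j ≤ N, ∀ P, ‖iteratedFDeriv ℝ j (fun P => η * FF N q p P) P‖ ≤ 1 / 2 ^ N := by
  choose K hK0 hK using FF_bdd
  refine ⟨fun N q p => 1 / 2 ^ N / (1 + K N q p), fun N q p => ⟨?_, ?_, ?_⟩⟩
  · have := hK0 N q p
    positivity
  · apply div_le_self (by positivity)
    have := hK0 N q p
    linarith
  · intro η hη j hj P
    have h0 := hK0 N q p
    have h1 : iteratedFDeriv ℝ j (fun P => η * FF N q p P) P = η • iteratedFDeriv ℝ j (FF N q p) P := by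
      have := iteratedFDeriv_const_smul_apply' (i := j) (x := P) (a := η)
        (((FF_smooth N q p).of_le (by exact_mod_cast le_top)).contDiffAt : ContDiffAt ℝ j (FF N q p) P)
      simpa [smul_eq_mul] using this
    rw [h1, norm_smul, Real.norm_eq_abs]
    rw [lt_div_iff₀ (by positivity)] at hη
    calc |η| * ‖iteratedFDeriv ℝ j (FF N q p) P‖ ≤ |η| * (1 + K N q p) := by
          apply mul_le_mul_of_nonneg_left _ (abs_nonneg _)
          have := hK N q p j hj P
          linarith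
      _ ≤ 1 / 2 ^ N := hη.le

/-- the chosen function -/
noncomputable def dl : ℕ → ℤ → ℤ → ℝ := exists_delta.choose

theorem dl_spec : ∀ N q p, 0 < dl N q p ∧ dl N q p ≤ 1 / 2 ^ N ∧
    ∀ η : ℝ, |η| < dl N q p → ∀ j ≤ N, ∀ P, ‖iteratedFDeriv ℝ j (fun P => η * FF N q p P) P‖ ≤ 1 / 2 ^ N :=
  exists_delta.choose_spec

/-- generic frequencies are extremely well approximated by rationals -/
theorem resid : ∀ᶠ θ : ℝ in residual ℝ, Irrational θ ∧ ∀ N : ℕ, ∃ q p : ℤ, 0 < |q * θ - p| ∧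
    |q * θ - p| < dl N q p := by
  refine (eventually_residual_irrational).and ?_
  rw [eventually_countable_forall]
  intro N
  refine residual_of_dense_open ?_ ?_
  · have h1 : {θ : ℝ | ∃ q p : ℤ, 0 < |q * θ - p| ∧ |q * θ - p| < dl N q p} =
        ⋃ q : ℤ, ⋃ p : ℤ, {θ : ℝ | 0 < |q * θ - p| ∧ |q * θ - p| < dl N q p} := by
      ext θ
      simp
    show IsOpen {θ : ℝ | ∃ q p : ℤ, 0 < |q * θ - p| ∧ |q * θ - p| < dl N q p}
    rw [h1]
    refine isOpen_iUnion fun q => isOpen_iUnion fun p => ?_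
    have hc : Continuous (fun θ : ℝ => |q * θ - p|) := by fun_prop
    exact (isOpen_lt continuous_const hc).inter (isOpen_lt hc continuous_const)
  · rw [Metric.dense_iff]
    intro θ0 ε hε
    obtain ⟨r, hr1, hr2⟩ := exists_rat_btwn (show θ0 < θ0 + ε / 2 by linarith)
    have hq : (0 : ℝ) < r.den := by exact_mod_cast r.pos
    obtain ⟨hd0, _, _⟩ := dl_spec N r.den r.num
    set e : ℝ := min (ε / 2) (dl N r.den r.num / (2 * r.den)) with he
    have he0 : 0 < e := lt_min (by positivity) (by positivity)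
    have h1 : ((r.den : ℤ) : ℝ) * (r + e) - (r.num : ℝ) = r.den * e := by
      have h2 : (r.den : ℝ) * (r : ℝ) = r.num := by
        have := Rat.den_mul_eq_num r
        exact_mod_cast this
      push_cast
      linarith
    refine ⟨r + e, ?_, r.den, r.num, ?_, ?_⟩
    · rw [Metric.mem_ball, Real.dist_eq, abs_lt]
      have h3 : e ≤ ε / 2 := min_le_left _ _
      constructor <;> linarith
    · rw [h1]
      exact abs_pos.2 (by positivity)
    · rw [h1, abs_of_pos (by positivity)]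
      have h3 : e ≤ dl N r.den r.num / (2 * r.den) := min_le_right _ _
      calc (r.den : ℝ) * e ≤ r.den * (dl N r.den r.num / (2 * r.den)) := mul_le_mul_of_nonneg_left h3 hq.le
        _ = dl N r.den r.num / 2 := by field_simp
        _ < dl N r.den r.num := by linarith

/-! ### the transition regions -/

/-- the cosine on the circle -/
noncomputable def co (v : UC) : ℝ := (fourier 1 v : ℂ).re

theorem co_coe (v : ℝ) : co (v : UC) = Real.cos (2 * Real.pi * v) := by
  unfold co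
  rw [fourier_coe_apply]
  have : (2 * Real.pi * Complex.I * (1 : ℤ) * v / (1 : ℝ) : ℂ) = ((2 * Real.pi * v : ℝ) : ℂ) * Complex.I := by
    push_cast
    ring
  rw [this, Complex.exp_ofReal_mul_I_re]

theorem co_cont : Continuous co := Complex.continuous_re.comp (fourier 1).continuous

/-- the transition region -/
def Tr (N : ℕ) : Set UC := {v | 0 < co v ∧ co v < 1 / 2 ^ N}

theorem Tr_meas (N : ℕ) : MeasurableSet (Tr N) :=
  (measurableSet_lt measurable_const co_cont.measurable).inter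
    (measurableSet_lt co_cont.measurable measurable_const)

theorem Tr_small (ε : ℝ) (hε : 0 < ε) : ∃ N0 : ℕ, ∀ N ≥ N0, (volume : Measure UC).real (Tr N) < ε := by
  have hanti : Antitone Tr := by
    intro a b hab v hv
    refine ⟨hv.1, lt_of_lt_of_le hv.2 ?_⟩
    exact one_div_le_one_div_of_le (by positivity) (pow_le_pow_right₀ (by norm_num) hab)
  have h1 : Tendsto (fun N : ℕ => (volume : Measure UC) (Tr N)) atTop (𝓝 ((volume : Measure UC) (⋂ N : ℕ, Tr N))) := by
    apply tendsto_measure_iInter_atTop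
    · intro N
      exact (Tr_meas N).nullMeasurableSet
    · exact hanti
    · exact ⟨0, measure_ne_top _ _⟩
  have h2 : (⋂ N : ℕ, Tr N) = ∅ := by
    ext v
    simp only [mem_iInter, mem_empty_iff_false, iff_false, not_forall]
    by_cases hv : 0 < co v
    · obtain ⟨N, hN⟩ := exists_pow_lt_of_lt_one hv (by norm_num : (1 / 2 : ℝ) < 1)
      refine ⟨N, fun h => ?_⟩
      have h3 := h.2
      rw [one_div_pow] at hN
      linarith
    · exact ⟨0, fun h => hv h.1⟩
  rw [h2, measure_empty] at h1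
  have h3 := (ENNReal.tendsto_toReal (by simp : (0 : ENNReal) ≠ ⊤)).comp h1
  have h4 : ∀ᶠ N : ℕ in atTop, (volume : Measure UC).real (Tr N) < ε :=
    h3.eventually (gt_mem_nhds (by simpa using hε))
  exact eventually_atTop.1 h4

/-! ### the data -/

/-- the sequences of levels and approximants -/
structure Dat (θ : ℝ) where
  N : ℕ → ℕ
  q : ℕ → ℤ
  p : ℕ → ℤ
  eta_pos : ∀ k, 0 < |q k * θ - p k|
  eta_lt : ∀ k, |q k * θ - p k| < dl (N k) (q k) (p k)
  mono : StrictMono N
  N0 : 1 ≤ N 0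
  next : ∀ k, 1 / 2 ^ N (k + 1) ≤ |q k * θ - p k| / 4
  trans : ∀ k, (volume : Measure UC).real (Tr (N k)) < 1 / 2 ^ k

theorem exists_dat (θ : ℝ) (h : ∀ N : ℕ, ∃ q p : ℤ, 0 < |q * θ - p| ∧ |q * θ - p| < dl N q p) :
    Nonempty (Dat θ) := by
  choose q p h1 h2 using h
  -- next level
  have hstep : ∀ (k n : ℕ), ∃ n' : ℕ, n < n' ∧ 1 / 2 ^ n' ≤ |q n * θ - p n| / 4 ∧
      (volume : Measure UC).real (Tr n') < 1 / 2 ^ (k + 1) := by
    intro k n
    obtain ⟨M, hM⟩ := Tr_small (1 / 2 ^ (k + 1)) (by positivity)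
    obtain ⟨M', hM'⟩ := exists_pow_lt_of_lt_one (show (0 : ℝ) < |q n * θ - p n| / 4 by
      have := h1 n
      positivity) (by norm_num : (1 / 2 : ℝ) < 1)
    refine ⟨max (n + 1) (max M M'), lt_of_lt_of_le (Nat.lt_succ_self n) (le_max_left _ _), ?_,
      hM _ ((le_max_left _ _).trans (le_max_right _ _))⟩
    rw [one_div_pow] at hM'
    refine le_trans ?_ hM'.le
    exact one_div_le_one_div_of_le (by positivity)
      (pow_le_pow_right₀ (by norm_num) ((le_max_right _ _).trans (le_max_right _ _)))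
  choose f hf1 hf2 hf3 using hstep
  obtain ⟨n0, hn0⟩ := Tr_small (1 / 2 ^ 0) (by positivity)
  let N : ℕ → ℕ := fun k => Nat.rec (max 1 n0) (fun k n => f k n) k
  have hN0 : N 0 = max 1 n0 := rfl
  have hNs : ∀ k, N (k + 1) = f k (N k) := fun k => rfl
  refine ⟨⟨N, fun k => q (N k), fun k => p (N k), fun k => h1 _, fun k => h2 _, ?_, ?_, ?_, ?_⟩⟩
  · exact strictMono_nat_of_lt_succ fun k => by rw [hNs]; exact hf1 _ _
  · rw [hN0]
    exact le_max_left _ _
  · intro k
    rw [hNs]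
    exact hf2 _ _
  · intro k
    rcases k with _ | k
    · rw [hN0]
      exact hn0 _ (le_max_right _ _)
    · rw [hNs]
      exact hf3 _ _

theorem resid_dat : ∀ᶠ θ : ℝ in residual ℝ, Irrational θ ∧ Nonempty (Dat θ) := by
  filter_upwards [resid] with θ hθ
  exact ⟨hθ.1, exists_dat θ hθ.2⟩

end Pool.Agent.TH286.NF
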