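import Mathlib
import Pool.Agent.TH286.NF.Coord
import Pool.Agent.TH286.GM.Est

set_option autoImplicit false

/-!
Unique ergodicity of Heisenberg nilflows with irrational slope.
-/

open MeasureTheory Set Filter Topology
open scoped ContDiff

namespace Pool.Agent.TH286.NF

/-! ### Fourier coefficients determine a measure -/

theorem torus_unique {d : Type*} [Fintype d] (m1 m2 : Measure (UnitAddTorus d)) [IsFiniteMeasure m1]
    [IsFiniteMeasure m2] (h : ∀ n : d → ℤ, ∫ x, UnitAddTorus.mFourier n x ∂m1 =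
      ∫ x, UnitAddTorus.mFourier n x ∂m2) : m1 = m2 := by
  have hint : ∀ (m : Measure (UnitAddTorus d)) [IsFiniteMeasure m] (f : C(UnitAddTorus d, ℂ)), Integrable f m := by
    intro m _ f
    exact Integrable.of_bound f.continuous.aestronglyMeasurable ‖f‖
      (Eventually.of_forall fun x => f.norm_coe_le_norm x)
  have hcont : ∀ (m : Measure (UnitAddTorus d)) [IsFiniteMeasure m],
      Continuous (fun f : C(UnitAddTorus d, ℂ) => ∫ x, f x ∂m) := by
    intro m _
    refine LipschitzWith.continuous (K := (m.real univ).toNNReal) (LipschitzWith.of_dist_le_mul fun f g => ?_)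
    rw [dist_eq_norm, ← integral_sub (hint m f) (hint m g), Real.coe_toNNReal _ measureReal_nonneg, dist_eq_norm]
    refine (norm_integral_le_of_norm_le_const (C := ‖f - g‖) (Eventually.of_forall fun x => ?_)).trans
      (le_of_eq (mul_comm _ _))
    exact (f - g).norm_coe_le_norm x
  have hall : ∀ f : C(UnitAddTorus d, ℂ), ∫ x, f x ∂m1 = ∫ x, f x ∂m2 := by
    let V : Submodule ℂ C(UnitAddTorus d, ℂ) :=
      { carrier := {f | ∫ x, f x ∂m1 = ∫ x, f x ∂m2}
        add_mem' := by
          intro f g hf hg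
          show ∫ x, (f x + g x) ∂m1 = ∫ x, (f x + g x) ∂m2
          rw [integral_add (hint m1 f) (hint m1 g), integral_add (hint m2 f) (hint m2 g)]
          exact congrArg₂ _ hf hg
        zero_mem' := by simp
        smul_mem' := by
          intro c f hf
          show ∫ x, c • f x ∂m1 = ∫ x, c • f x ∂m2
          rw [integral_smul, integral_smul]
          exact congrArg _ hf }
    have hVc : IsClosed (V : Set C(UnitAddTorus d, ℂ)) := isClosed_eq (hcont m1) (hcont m2)
    have h1 : Submodule.span ℂ (range (UnitAddTorus.mFourier (d := d))) ≤ V := by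
      rw [Submodule.span_le]
      rintro _ ⟨n, rfl⟩
      exact h n
    have h2 : (Submodule.span ℂ (range (UnitAddTorus.mFourier (d := d)))).topologicalClosure ≤ V :=
      Submodule.topologicalClosure_minimal _ h1 hVc
    rw [UnitAddTorus.span_mFourier_closure_eq_top] at h2
    intro f
    exact h2 (Submodule.mem_top)
  apply ext_of_forall_integral_eq_of_IsFiniteMeasure
  intro f
  have h3 := hall ⟨fun x => ((f x : ℝ) : ℂ), by fun_prop⟩
  simp only [ContinuousMap.coe_mk] at h3
  rw [integral_complex_ofReal, integral_complex_ofReal] at h3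
  exact_mod_cast h3

theorem T2_unique (m1 m2 : Measure (UC × UC)) [IsFiniteMeasure m1] [IsFiniteMeasure m2]
    (h : ∀ a b : ℤ, ∫ p, fourier a p.1 * fourier b p.2 ∂m1 = ∫ p, fourier a p.1 * fourier b p.2 ∂m2) :
    m1 = m2 := by
  have he : Measurable (fun p : UC × UC => (![p.1, p.2] : Fin 2 → UC)) := by
    refine measurable_pi_lambda _ fun i => ?_
    fin_cases i
    · exact measurable_fst
    · exact measurable_snd
  have he' : Measurable (fun x : Fin 2 → UC => (x 0, x 1)) := (measurable_pi_apply 0).prodMk (measurable_pi_apply 1)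
  have h1 : Measure.map (fun p : UC × UC => (![p.1, p.2] : Fin 2 → UC)) m1 =
      Measure.map (fun p : UC × UC => (![p.1, p.2] : Fin 2 → UC)) m2 := by
    refine torus_unique (d := Fin 2) _ _ fun n => ?_
    rw [integral_map he.aemeasurable (UnitAddTorus.mFourier n).continuous.aestronglyMeasurable,
      integral_map he.aemeasurable (UnitAddTorus.mFourier n).continuous.aestronglyMeasurable]
    have h2 := h (n 0) (n 1)
    simp only [UnitAddTorus.mFourier, ContinuousMap.coe_mk, Fin.prod_univ_two]
    exact h2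
  have h2 := congrArg (Measure.map (fun x : Fin 2 → UC => (x 0, x 1))) h1
  rw [Measure.map_map he' he, Measure.map_map he' he] at h2
  have h3 : ((fun x : Fin 2 → UC => (x 0, x 1)) ∘ (fun p : UC × UC => (![p.1, p.2] : Fin 2 → UC))) = id := rfl
  rw [h3, Measure.map_id, Measure.map_id] at h2
  exact h2

theorem T3_unique (m1 m2 : Measure T3) [IsFiniteMeasure m1] [IsFiniteMeasure m2]
    (h : ∀ a b c : ℤ, ∫ p : T3, fourier a p.1 * (fourier b p.2.1 * fourier c p.2.2) ∂m1 =
      ∫ p : T3, fourier a p.1 * (fourier b p.2.1 * fourier c p.2.2) ∂m2) :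
    m1 = m2 := by
  have he : Measurable (fun p : T3 => (![p.1, p.2.1, p.2.2] : Fin 3 → UC)) := by
    refine measurable_pi_lambda _ fun i => ?_
    fin_cases i
    · exact measurable_fst
    · exact measurable_fst.comp measurable_snd
    · exact measurable_snd.comp measurable_snd
  have he' : Measurable (fun x : Fin 3 → UC => ((x 0, x 1, x 2) : T3)) :=
    (measurable_pi_apply 0).prodMk ((measurable_pi_apply 1).prodMk (measurable_pi_apply 2))
  have h1 : Measure.map (fun p : T3 => (![p.1, p.2.1, p.2.2] : Fin 3 → UC)) m1 =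
      Measure.map (fun p : T3 => (![p.1, p.2.1, p.2.2] : Fin 3 → UC)) m2 := by
    refine torus_unique (d := Fin 3) _ _ fun n => ?_
    rw [integral_map he.aemeasurable (UnitAddTorus.mFourier n).continuous.aestronglyMeasurable,
      integral_map he.aemeasurable (UnitAddTorus.mFourier n).continuous.aestronglyMeasurable]
    have h2 := h (n 0) (n 1) (n 2)
    simp only [UnitAddTorus.mFourier, ContinuousMap.coe_mk, Fin.prod_univ_three]
    simp only [← mul_assoc] at h2
    exact h2
  have h2 := congrArg (Measure.map (fun x : Fin 3 → UC => ((x 0, x 1, x 2) : T3))) h1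
  rw [Measure.map_map he' he, Measure.map_map he' he] at h2
  have h3 : ((fun x : Fin 3 → UC => ((x 0, x 1, x 2) : T3)) ∘
    (fun p : T3 => (![p.1, p.2.1, p.2.2] : Fin 3 → UC))) = id := rfl
  rw [h3, Measure.map_id, Measure.map_id] at h2
  exact h2

/-! ### characters -/

theorem four_add (n : ℤ) (x y : UC) : (fourier n (x + y) : ℂ) = fourier n x * fourier n y := by
  rw [fourier_apply, fourier_apply, fourier_apply, zsmul_add, AddCircle.toCircle_add, Circle.coe_mul]

theorem four_norm (n : ℤ) (x : UC) : ‖(fourier n x : ℂ)‖ = 1 := Circle.norm_coe _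

theorem four_meas (n : ℤ) : Measurable (fun x : UC => (fourier n x : ℂ)) := (fourier n).continuous.measurable

theorem four_real (n : ℤ) (x : ℝ) : (fourier n (x : UC) : ℂ) = Complex.exp ((2 * Real.pi * (n * x) : ℝ) * Complex.I) := by
  rw [fourier_coe_apply]
  congr 1
  push_cast
  ring

theorem four_conj (n : ℤ) (x : UC) : (fourier n x : ℂ) * (starRingEnd ℂ) (fourier n x) = 1 := by
  rw [Complex.mul_conj, Complex.normSq_eq_norm_sq, four_norm]
  norm_num

/-! ### the flow in coordinates -/

/-- the nilflow with direction `(1, θ, 0)` -/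
noncomputable abbrev fl (θ : ℝ) : ℝ → Nil → Nil := nilflow 1 θ 0

theorem fl_of (θ t x y z : ℝ) : fl θ t (Nil.of ⟨x, y, z⟩) =
    Nil.of ⟨x + t, y + t * θ, z + t ^ 2 * θ / 2 + x * (t * θ)⟩ := by
  show Nil.of ((⟨x, y, z⟩ : Heis) * Heis.exp (t * 1) (t * θ) (t * 0)) = _
  congr 1
  ext
  · simp [Heis.mul_def, Heis.exp]
  · simp [Heis.mul_def, Heis.exp]
  · simp only [Heis.mul_def, Heis.exp]
    ring

/-- the cocycle -/
noncomputable def cc (θ t : ℝ) (p : UC × UC) : UC :=
  ((t ^ 2 * θ / 2 + rep p.1 * (t * θ) - ⌊rep p.1 + t⌋ * (rep p.2 + t * θ) : ℝ) : UC)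

theorem cc_meas (θ t : ℝ) : Measurable (cc θ t) := by
  refine coe_meas.comp ?_
  have h1 : Measurable (fun p : UC × UC => rep p.1) := rep_meas.comp measurable_fst
  have h2 : Measurable (fun p : UC × UC => rep p.2) := rep_meas.comp measurable_snd
  have h3 : Measurable (fun p : UC × UC => ((⌊rep p.1 + t⌋ : ℤ) : ℝ)) :=
    (measurable_from_top (f := fun n : ℤ => (n : ℝ))).comp (Int.measurable_floor.comp (h1.add_const t))
  exact (measurable_const.add (h1.mul_const _)).sub (h3.mul (h2.add_const _))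

/-- the flow in coordinates -/
noncomputable def SS (θ t : ℝ) (p : T3) : T3 :=
  (p.1 + (t : UC), p.2.1 + ((t * θ : ℝ) : UC), p.2.2 + cc θ t (p.1, p.2.1))

theorem kap_fl (θ t : ℝ) (p : Nil) : kap (fl θ t p) = SS θ t (kap p) := by
  obtain ⟨q, rfl⟩ : ∃ q, lam q = p := ⟨kap p, lam_kap p⟩
  rw [kap_lam]
  show kap (fl θ t (Nil.of ⟨rep q.1, rep q.2.1, rep q.2.2⟩)) = _
  rw [fl_of]
  show kap0 _ = _
  unfold kap0 SS cc
  refine Prod.ext ?_ (Prod.ext ?_ ?_)
  · show ((rep q.1 + t : ℝ) : UC) = q.1 + (t : UC)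
    rw [AddCircle.coe_add, coe_rep]
  · show ((rep q.2.1 + t * θ : ℝ) : UC) = q.2.1 + ((t * θ : ℝ) : UC)
    rw [AddCircle.coe_add, coe_rep]
  · show ((rep q.2.2 + t ^ 2 * θ / 2 + rep q.1 * (t * θ) - ⌊rep q.1 + t⌋ * (rep q.2.1 + t * θ) : ℝ) : UC) = _
    have h1 : rep q.2.2 + t ^ 2 * θ / 2 + rep q.1 * (t * θ) - ⌊rep q.1 + t⌋ * (rep q.2.1 + t * θ) =
      rep q.2.2 + (t ^ 2 * θ / 2 + rep q.1 * (t * θ) - ⌊rep q.1 + t⌋ * (rep q.2.1 + t * θ)) := by ring
    rw [h1, AddCircle.coe_add, coe_rep]

theorem SS_meas (θ t : ℝ) : Measurable (SS θ t) := by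
  refine (measurable_fst.add_const _).prodMk (((measurable_fst.comp measurable_snd).add_const _).prodMk ?_)
  exact (measurable_snd.comp measurable_snd).add
    ((cc_meas θ t).comp (measurable_fst.prodMk (measurable_fst.comp measurable_snd)))

theorem SS_mp (θ t : ℝ) : MeasurePreserving (SS θ t) (volume : Measure T3) volume := by
  have h1 : ∀ x : UC, MeasurePreserving (fun q : UC × UC => (q.1 + ((t * θ : ℝ) : UC), q.2 + cc θ t (x, q.1)))
      ((volume : Measure UC).prod volume) ((volume : Measure UC).prod volume) := by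
    intro x
    refine MeasurePreserving.skew_product (measurePreserving_add_right _ _)
      (g := fun (y : UC) (z : UC) => z + cc θ t (x, y)) ?_ ?_
    · exact measurable_snd.add ((cc_meas θ t).comp (measurable_const.prodMk measurable_fst))
    · exact Eventually.of_forall fun y => (measurePreserving_add_right volume _).map_eq
  have h2 : MeasurePreserving (fun p : UC × (UC × UC) => (p.1 + (t : UC),
      (fun x (q : UC × UC) => (q.1 + ((t * θ : ℝ) : UC), q.2 + cc θ t (x, q.1))) p.1 p.2))
      ((volume : Measure UC).prod (volume : Measure (UC × UC)))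
      ((volume : Measure UC).prod (volume : Measure (UC × UC))) := by
    refine MeasurePreserving.skew_product (measurePreserving_add_right _ _)
      (g := fun x (q : UC × UC) => (q.1 + ((t * θ : ℝ) : UC), q.2 + cc θ t (x, q.1))) ?_ ?_
    · exact measurable_snd.comp (SS_meas θ t)
    · exact Eventually.of_forall fun x => (h1 x).map_eq
  exact h2

theorem fl_eq (θ t : ℝ) : fl θ t = lam ∘ SS θ t ∘ kap := by
  funext p
  show fl θ t p = lam (SS θ t (kap p))
  rw [← kap_fl, lam_kap]

theorem fl_mp (θ t : ℝ) : MeasurePreserving (fl θ t) haar haar := by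
  rw [fl_eq]
  exact lam_mp.comp ((SS_mp θ t).comp kap_mp)

/-! ### uniqueness -/

/-- `f (kap p)` for the character with indices `a, b, c` -/
noncomputable def chi (a b c : ℤ) (p : T3) : ℂ := fourier a p.1 * (fourier b p.2.1 * fourier c p.2.2)

theorem chi_meas (a b c : ℤ) : Measurable (chi a b c) :=
  ((four_meas a).comp measurable_fst).mul (((four_meas b).comp (measurable_fst.comp measurable_snd)).mul
    ((four_meas c).comp (measurable_snd.comp measurable_snd)))

theorem chi_norm (a b c : ℤ) (p : T3) : ‖chi a b c p‖ = 1 := by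
  unfold chi
  rw [norm_mul, norm_mul, four_norm, four_norm, four_norm]
  norm_num

theorem chi_int {m : Measure T3} [IsFiniteMeasure m] (a b c : ℤ) : Integrable (chi a b c) m :=
  Integrable.of_bound (chi_meas a b c).aestronglyMeasurable 1 (Eventually.of_forall fun p => (chi_norm a b c p).le)

/-- step A: characters of the base -/
theorem stepA {θ : ℝ} (hθ : Irrational θ) (m : Measure T3) [IsProbabilityMeasure m]
    (hm : ∀ t, MeasurePreserving (SS θ t) m m) (a b : ℤ) (hab : ¬ (a = 0 ∧ b = 0)) :
    ∫ p, chi a b 0 p ∂m = 0 := by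
  have hne : (a : ℝ) + b * θ ≠ 0 := by
    intro h
    by_cases hb : b = 0
    · subst hb
      simp at h
      exact hab ⟨h, rfl⟩
    · have hb' : (b : ℝ) ≠ 0 := by exact_mod_cast hb
      apply hθ
      refine ⟨-(a : ℚ) / b, ?_⟩
      push_cast
      rw [div_eq_iff hb']
      linarith
  set t : ℝ := 1 / (2 * (a + b * θ)) with ht
  have h1 : ∀ p, chi a b 0 (SS θ t p) = - chi a b 0 p := by
    intro p
    unfold chi SS
    simp only
    rw [four_add, four_add, fourier_zero, fourier_zero, four_real, four_real]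
    have h2 : Complex.exp ((2 * Real.pi * (a * t) : ℝ) * Complex.I) *
        Complex.exp ((2 * Real.pi * (b * (t * θ)) : ℝ) * Complex.I) = -1 := by
      rw [← Complex.exp_add, ← add_mul, ← Complex.ofReal_add]
      have h3 : 2 * Real.pi * (a * t) + 2 * Real.pi * (b * (t * θ)) = Real.pi := by
        rw [ht]
        field_simp
      rw [h3, Complex.exp_pi_mul_I]
    linear_combination (fourier a p.1 * fourier b p.2.1) * h2
  have h2 : ∫ p, chi a b 0 p ∂m = ∫ p, chi a b 0 (SS θ t p) ∂m := by
    have h3 := (hm t).map_eq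
    conv_lhs => rw [← h3]
    rw [integral_map (SS_meas θ t).aemeasurable (chi_meas a b 0).aestronglyMeasurable]
  simp only [h1, integral_neg] at h2
  have h3 : (2 : ℂ) * ∫ p, chi a b 0 p ∂m = 0 := by linear_combination h2
  simpa using h3

theorem int_shift (G : UC × UC → ℂ) (hG : Measurable G) (s : UC × UC) :
    ∫ q, G (q + s) ∂(volume : Measure (UC × UC)) = ∫ q, G q ∂(volume : Measure (UC × UC)) := by
  have h : MeasurePreserving (fun q : UC × UC => q + s) (volume : Measure (UC × UC)) volume :=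
    (measurePreserving_add_right (volume : Measure UC) s.1).prod
      (measurePreserving_add_right (volume : Measure UC) s.2)
  conv_rhs => rw [← h.map_eq]
  rw [integral_map h.measurable.aemeasurable hG.aestronglyMeasurable]

theorem vol_chi2 (a b : ℤ) (hab : ¬ (a = 0 ∧ b = 0)) :
    ∫ p : UC × UC, fourier a p.1 * fourier b p.2 ∂volume = (0 : ℂ) := by
  have key : ∀ s : UC × UC, (∀ p : UC × UC, (fourier a (p + s).1 * fourier b (p + s).2 : ℂ) =
      - (fourier a p.1 * fourier b p.2)) → ∫ p : UC × UC, fourier a p.1 * fourier b p.2 ∂volume = (0 : ℂ) := by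
    intro s hs
    have h1 := int_shift (fun p : UC × UC => (fourier a p.1 * fourier b p.2 : ℂ))
      (((four_meas a).comp measurable_fst).mul ((four_meas b).comp measurable_snd)) s
    simp only [hs, integral_neg] at h1
    have h3 : (2 : ℂ) * ∫ p : UC × UC, fourier a p.1 * fourier b p.2 ∂volume = 0 := by linear_combination - h1
    simpa using h3
  by_cases ha : a = 0
  · have hb : b ≠ 0 := fun hb => hab ⟨ha, hb⟩
    refine key (0, ((1 / 2 / b : ℝ) : UC)) fun p => ?_
    have h2 := fourier_add_half_inv_index hb one_pos p.2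
    show (fourier a (p.1 + 0) * fourier b (p.2 + ((1 / 2 / b : ℝ) : UC)) : ℂ) = _
    rw [h2, add_zero]
    ring
  · refine key (((1 / 2 / a : ℝ) : UC), 0) fun p => ?_
    have h2 := fourier_add_half_inv_index ha one_pos p.1
    show (fourier a (p.1 + ((1 / 2 / a : ℝ) : UC)) * fourier b (p.2 + 0) : ℂ) = _
    rw [h2, add_zero]
    ring

/-- the projection of an invariant measure to the base is Lebesgue measure -/
theorem base_leb {θ : ℝ} (hθ : Irrational θ) (m : Measure T3) [IsProbabilityMeasure m]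
    (hm : ∀ t, MeasurePreserving (SS θ t) m m) :
    Measure.map (fun p : T3 => (p.1, p.2.1)) m = (volume : Measure (UC × UC)) := by
  have hpm : Measurable (fun p : T3 => (p.1, p.2.1)) := measurable_fst.prodMk (measurable_fst.comp measurable_snd)
  have : IsProbabilityMeasure (Measure.map (fun p : T3 => (p.1, p.2.1)) m) :=
    Measure.isProbabilityMeasure_map hpm.aemeasurable
  refine T2_unique _ _ fun a b => ?_
  have hcm : Measurable (fun p : UC × UC => (fourier a p.1 * fourier b p.2 : ℂ)) :=
    ((four_meas a).comp measurable_fst).mul ((four_meas b).comp measurable_snd)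
  rw [integral_map hpm.aemeasurable hcm.aestronglyMeasurable]
  by_cases hab : a = 0 ∧ b = 0
  · obtain ⟨rfl, rfl⟩ := hab
    simp
  · rw [vol_chi2 a b hab]
    have h1 := stepA hθ m hm a b hab
    rw [← h1]
    refine integral_congr_ae (Eventually.of_forall fun p => ?_)
    simp [chi]

theorem cc_nat (θ : ℝ) (n : ℕ) (p : UC × UC) :
    cc θ n p = ((-((n : ℝ) ^ 2 * θ / 2) + rep p.1 * (n * θ) : ℝ) : UC) - (n : ℤ) • p.2 := by
  unfold cc
  have h1 : ⌊rep p.1 + (n : ℝ)⌋ = n := by
    rw [Int.floor_add_natCast, floor_rep, zero_add]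
  rw [h1]
  have h2 : (n : ℝ) ^ 2 * θ / 2 + rep p.1 * (n * θ) - ((n : ℤ) : ℝ) * (rep p.2 + n * θ) =
      (-((n : ℝ) ^ 2 * θ / 2) + rep p.1 * (n * θ)) - ((n : ℤ) : ℝ) * rep p.2 := by
    push_cast
    ring
  rw [h2, AddCircle.coe_sub]
  congr 1
  have h3 : (((n : ℤ) : ℝ) * rep p.2 : ℝ) = (n : ℤ) • rep p.2 := by simp
  rw [h3, AddCircle.coe_zsmul, coe_rep]

theorem four_sub (n : ℤ) (x y : UC) : (fourier n (x - y) : ℂ) = fourier n x * (starRingEnd ℂ) (fourier n y) := by
  have h1 := four_add n (x - y) y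
  rw [sub_add_cancel] at h1
  rw [h1, mul_assoc, four_conj, mul_one]

theorem four_zsmul (n k : ℤ) (x : UC) : (fourier n (k • x) : ℂ) = fourier (n * k) x := by
  rw [fourier_apply, fourier_apply, smul_smul]

/-- step B: functions of nonzero central frequency along integer times are orthogonal -/
theorem stepB {θ : ℝ} (hθ : Irrational θ) (m : Measure T3) [IsProbabilityMeasure m]
    (hm : ∀ t, MeasurePreserving (SS θ t) m m) (a b c : ℤ) (hc : c ≠ 0) (n n' : ℕ) (hn : n ≠ n') :
    ∫ p, chi a b c (SS θ n p) * (starRingEnd ℂ) (chi a b c (SS θ n' p)) ∂m = 0 := by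
  set C : ℂ := fourier b (((n : ℝ) * θ : ℝ) : UC) * (starRingEnd ℂ) (fourier b (((n' : ℝ) * θ : ℝ) : UC)) with hC
  set G : UC × UC → ℂ := fun q => C * (fourier c ((-((n : ℝ) ^ 2 * θ / 2) + rep q.1 * (n * θ) : ℝ) : UC) *
    (starRingEnd ℂ) (fourier c ((-((n' : ℝ) ^ 2 * θ / 2) + rep q.1 * (n' * θ) : ℝ) : UC)) *
      fourier (c * ((n' : ℤ) - n)) q.2) with hG
  have hGm : Measurable G := by
    have h1 : ∀ k : ℕ, Measurable (fun q : UC × UC =>
        (fourier c ((-((k : ℝ) ^ 2 * θ / 2) + rep q.1 * (k * θ) : ℝ) : UC) : ℂ)) := by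
      intro k
      exact (four_meas c).comp (coe_meas.comp (measurable_const.add ((rep_meas.comp measurable_fst).mul_const _)))
    exact measurable_const.mul (((h1 n).mul (Complex.continuous_conj.measurable.comp (h1 n'))).mul
      ((four_meas _).comp measurable_snd))
  have h0 : ((n : ℝ) : UC) = 0 := by
    have := coe_int_zero (n : ℤ)
    simpa using this
  have h0' : ((n' : ℝ) : UC) = 0 := by
    have := coe_int_zero (n' : ℤ)
    simpa using this
  have h1 : ∀ p : T3, chi a b c (SS θ n p) * (starRingEnd ℂ) (chi a b c (SS θ n' p)) = G (p.1, p.2.1) := by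
    intro p
    simp only [chi, SS, h0, h0', add_zero, cc_nat, four_add, four_sub, four_zsmul, map_mul, Complex.conj_conj,
      hG, hC]
    have e1 := four_conj a p.1
    have e2 := four_conj b p.2.1
    have e3 := four_conj c p.2.2
    have e4 : (fourier (c * ((n' : ℤ) - n)) p.2.1 : ℂ) =
        (starRingEnd ℂ) (fourier (c * (n : ℤ)) p.2.1) * fourier (c * (n' : ℤ)) p.2.1 := by
      rw [mul_sub, sub_eq_add_neg, fourier_add, fourier_neg]
      ring
    rw [e4]
    linear_combination ((fourier b p.2.1 : ℂ) * (starRingEnd ℂ) (fourier b p.2.1) *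
      ((fourier c p.2.2 : ℂ) * (starRingEnd ℂ) (fourier c p.2.2)) *
      (fourier b (((n : ℝ) * θ : ℝ) : UC) * (starRingEnd ℂ) (fourier b (((n' : ℝ) * θ : ℝ) : UC)) *
      (fourier c ((-((n : ℝ) ^ 2 * θ / 2) + rep p.1 * (n * θ) : ℝ) : UC) *
      (starRingEnd ℂ) (fourier c ((-((n' : ℝ) ^ 2 * θ / 2) + rep p.1 * (n' * θ) : ℝ) : UC)) *
      ((starRingEnd ℂ) (fourier (c * (n : ℤ)) p.2.1) * fourier (c * (n' : ℤ)) p.2.1)))) * e1 +
      (((fourier c p.2.2 : ℂ) * (starRingEnd ℂ) (fourier c p.2.2)) *
      (fourier b (((n : ℝ) * θ : ℝ) : UC) * (starRingEnd ℂ) (fourier b (((n' : ℝ) * θ : ℝ) : UC)) *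
      (fourier c ((-((n : ℝ) ^ 2 * θ / 2) + rep p.1 * (n * θ) : ℝ) : UC) *
      (starRingEnd ℂ) (fourier c ((-((n' : ℝ) ^ 2 * θ / 2) + rep p.1 * (n' * θ) : ℝ) : UC)) *
      ((starRingEnd ℂ) (fourier (c * (n : ℤ)) p.2.1) * fourier (c * (n' : ℤ)) p.2.1)))) * e2 +
      ((fourier b (((n : ℝ) * θ : ℝ) : UC) * (starRingEnd ℂ) (fourier b (((n' : ℝ) * θ : ℝ) : UC)) *
      (fourier c ((-((n : ℝ) ^ 2 * θ / 2) + rep p.1 * (n * θ) : ℝ) : UC) *
      (starRingEnd ℂ) (fourier c ((-((n' : ℝ) ^ 2 * θ / 2) + rep p.1 * (n' * θ) : ℝ) : UC)) *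
      ((starRingEnd ℂ) (fourier (c * (n : ℤ)) p.2.1) * fourier (c * (n' : ℤ)) p.2.1)))) * e3
  simp only [h1]
  have hpm : Measurable (fun p : T3 => (p.1, p.2.1)) := measurable_fst.prodMk (measurable_fst.comp measurable_snd)
  have h2 : ∫ p, G (p.1, p.2.1) ∂m = ∫ q, G q ∂(volume : Measure (UC × UC)) := by
    rw [← base_leb hθ m hm, integral_map hpm.aemeasurable hGm.aestronglyMeasurable]
  rw [h2]
  set k : ℤ := c * ((n' : ℤ) - n) with hk
  have hk0 : k ≠ 0 := by
    apply mul_ne_zero hc
    intro h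
    apply hn
    have : (n' : ℤ) = n := by linarith
    exact_mod_cast this.symm
  have h3 : ∀ q : UC × UC, G (q + (0, ((1 / 2 / k : ℝ) : UC))) = - G q := by
    intro q
    have h4 := fourier_add_half_inv_index hk0 one_pos q.2
    simp only [hG]
    show C * (fourier c ((-((n : ℝ) ^ 2 * θ / 2) + rep (q.1 + 0) * (n * θ) : ℝ) : UC) *
      (starRingEnd ℂ) (fourier c ((-((n' : ℝ) ^ 2 * θ / 2) + rep (q.1 + 0) * (n' * θ) : ℝ) : UC)) *
      fourier k (q.2 + ((1 / 2 / k : ℝ) : UC))) = _
    rw [h4, add_zero]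
    ring
  have h5 := int_shift G hGm (0, ((1 / 2 / k : ℝ) : UC))
  simp only [h3, integral_neg] at h5
  have h6 : (2 : ℂ) * ∫ q, G q ∂(volume : Measure (UC × UC)) = 0 := by linear_combination - h5
  simpa using h6

/-- characters of nonzero central frequency have mean zero -/
theorem stepC {θ : ℝ} (hθ : Irrational θ) (m : Measure T3) [IsProbabilityMeasure m]
    (hm : ∀ t, MeasurePreserving (SS θ t) m m) (a b c : ℤ) (hc : c ≠ 0) :
    ∫ p, chi a b c p ∂m = 0 := by
  set I := ∫ p, chi a b c p ∂m with hI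
  have hf : ∀ n : ℕ, Measurable (fun p => chi a b c (SS θ n p)) := fun n => (chi_meas a b c).comp (SS_meas θ n)
  have hfi : ∀ n : ℕ, Integrable (fun p => chi a b c (SS θ n p)) m := fun n =>
    Integrable.of_bound (hf n).aestronglyMeasurable 1 (Eventually.of_forall fun p => (chi_norm a b c _).le)
  have h1 : ∀ n : ℕ, ∫ p, chi a b c (SS θ n p) ∂m = I := by
    intro n
    have h3 := (hm n).map_eq
    rw [hI]
    conv_rhs => rw [← h3]
    rw [integral_map (SS_meas θ n).aemeasurable (chi_meas a b c).aestronglyMeasurable]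
  -- for all `N`, `N ‖I‖ ≤ sqrt N`
  have h2 : ∀ N : ℕ, 0 < N → ‖I‖ ≤ 1 / Real.sqrt N := by
    intro N hN
    have hN' : (0 : ℝ) < N := by exact_mod_cast hN
    set h : T3 → ℂ := fun p => (1 / (N : ℂ)) * ∑ n ∈ Finset.range N, chi a b c (SS θ n p) with hh
    have hhm : Measurable h := measurable_const.mul (Finset.measurable_sum _ fun n _ => hf n)
    have hhb : ∀ p, ‖h p‖ ≤ 1 := by
      intro p
      show ‖(1 / (N : ℂ)) * ∑ n ∈ Finset.range N, chi a b c (SS θ n p)‖ ≤ 1
      rw [norm_mul, norm_div, norm_one, Complex.norm_natCast, one_div, inv_mul_le_iff₀ hN']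
      refine (norm_sum_le _ _).trans ?_
      simp only [chi_norm, Finset.sum_const, Finset.card_range, nsmul_eq_mul, mul_one, le_refl]
    have hIh : ∫ p, h p ∂m = I := by
      show ∫ p, (1 / (N : ℂ)) * ∑ n ∈ Finset.range N, chi a b c (SS θ n p) ∂m = I
      rw [integral_const_mul, integral_finsetSum _ (fun n _ => hfi n)]
      simp only [h1, Finset.sum_const, Finset.card_range, nsmul_eq_mul]
      have : (N : ℂ) ≠ 0 := by exact_mod_cast hN.ne'
      field_simp
    have hsq : ∫ p, ‖h p‖ ^ 2 ∂m = 1 / N := by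
      have e1 : ∀ p, ((‖h p‖ ^ 2 : ℝ) : ℂ) = (1 / (N : ℂ) ^ 2) * ∑ n ∈ Finset.range N, ∑ n' ∈ Finset.range N,
          chi a b c (SS θ n p) * (starRingEnd ℂ) (chi a b c (SS θ n' p)) := by
        intro p
        rw [← Finset.sum_mul_sum, ← map_sum]
        have e2 : ((‖h p‖ ^ 2 : ℝ) : ℂ) = h p * (starRingEnd ℂ) (h p) := by
          rw [Complex.mul_conj, Complex.normSq_eq_norm_sq]
        rw [e2]
        simp only [hh, map_mul, map_div₀, map_one, Complex.conj_natCast]
        ring
      have e3 : ((∫ p, ‖h p‖ ^ 2 ∂m : ℝ) : ℂ) = ((1 / N : ℝ) : ℂ) := by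
        rw [← integral_complex_ofReal]
        simp only [e1]
        have hii : ∀ n n' : ℕ, Integrable (fun p => chi a b c (SS θ n p) *
            (starRingEnd ℂ) (chi a b c (SS θ n' p))) m := by
          intro n n'
          refine Integrable.of_bound ((hf n).mul (Complex.continuous_conj.measurable.comp
            (hf n'))).aestronglyMeasurable 1 (Eventually.of_forall fun p => ?_)
          rw [norm_mul, RCLike.norm_conj, chi_norm, chi_norm]
          norm_num
        rw [integral_const_mul, integral_finsetSum _ (fun n _ => integrable_finsetSum _ fun n' _ => hii n n')]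
        have e4 : ∀ n ∈ Finset.range N, ∫ p, ∑ n' ∈ Finset.range N, chi a b c (SS θ n p) *
            (starRingEnd ℂ) (chi a b c (SS θ n' p)) ∂m = 1 := by
          intro n hn
          rw [integral_finsetSum _ (fun n' _ => hii n n')]
          rw [Finset.sum_eq_single n]
          · have e5 : ∀ p, chi a b c (SS θ n p) * (starRingEnd ℂ) (chi a b c (SS θ n p)) = 1 := by
              intro p
              rw [Complex.mul_conj, Complex.normSq_eq_norm_sq, chi_norm]
              norm_num
            simp only [e5]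
            simp
          · intro n' _ hnn
            exact stepB hθ m hm a b c hc n n' hnn.symm
          · intro h
            exact absurd hn h
        rw [Finset.sum_congr rfl e4]
        simp only [Finset.sum_const, Finset.card_range, nsmul_eq_mul, mul_one]
        push_cast
        have : (N : ℂ) ≠ 0 := by exact_mod_cast hN.ne'
        field_simp
      exact_mod_cast e3
    have hni : Integrable (fun p => ‖h p‖) m :=
      Integrable.of_bound hhm.norm.aestronglyMeasurable 1 (Eventually.of_forall fun p => by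
        rw [norm_norm]; exact hhb p)
    have hni2 : Integrable (fun p => ‖h p‖ ^ 2) m :=
      Integrable.of_bound (hhm.norm.pow_const 2).aestronglyMeasurable 1 (Eventually.of_forall fun p => by
        rw [norm_pow, norm_norm]; exact pow_le_one₀ (norm_nonneg _) (hhb p))
    have h3 := Pool.Agent.TH286.GM.int_abs_le (fun p => ‖h p‖) hni hni2 (1 / Real.sqrt N) (by positivity) (by
      rw [hsq, div_pow, one_pow, Real.sq_sqrt hN'.le])
    rw [← hIh]
    refine (norm_integral_le_integral_norm _).trans ?_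
    simpa using h3
  have h3 : Tendsto (fun N : ℕ => 1 / Real.sqrt N) atTop (𝓝 0) := by
    have h4 : Tendsto (fun N : ℕ => Real.sqrt N) atTop atTop :=
      Real.tendsto_sqrt_atTop.comp tendsto_natCast_atTop_atTop
    exact h4.inv_tendsto_atTop.congr fun N => by simp
  have h4 : ‖I‖ ≤ 0 := ge_of_tendsto h3 (eventually_atTop.2 ⟨1, fun N hN => h2 N hN⟩)
  exact norm_le_zero_iff.1 h4

theorem coord_unique {θ : ℝ} (hθ : Irrational θ) (m m' : Measure T3) [IsProbabilityMeasure m]
    [IsProbabilityMeasure m'] (hm : ∀ t, MeasurePreserving (SS θ t) m m)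
    (hm' : ∀ t, MeasurePreserving (SS θ t) m' m') : m = m' := by
  refine T3_unique m m' fun a b c => ?_
  show ∫ p, chi a b c p ∂m = ∫ p, chi a b c p ∂m'
  by_cases hc : c = 0
  · subst hc
    by_cases hab : a = 0 ∧ b = 0
    · obtain ⟨rfl, rfl⟩ := hab
      simp [chi]
    · rw [stepA hθ m hm a b hab, stepA hθ m' hm' a b hab]
  · rw [stepC hθ m hm a b c hc, stepC hθ m' hm' a b c hc]

/-- **Unique ergodicity** of the nilflow of direction `(1, θ, 0)`, `θ` irrational. -/
theorem ue {θ : ℝ} (hθ : Irrational θ) : UniquelyErgodic (fl θ) := by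
  refine ⟨fl_mp θ, fun m hmp hm => ?_⟩
  have h1 : ∀ t, MeasurePreserving (SS θ t) (Measure.map kap m) (Measure.map kap m) := by
    intro t
    refine ⟨SS_meas θ t, ?_⟩
    rw [Measure.map_map (SS_meas θ t) kap_meas]
    have h2 : SS θ t ∘ kap = kap ∘ fl θ t := by
      funext p
      exact (kap_fl θ t p).symm
    rw [h2, ← Measure.map_map kap_meas (hm t).measurable, (hm t).map_eq]
  have : IsProbabilityMeasure (Measure.map kap m) := Measure.isProbabilityMeasure_map kap_meas.aemeasurable
  have h3 := coord_unique hθ (Measure.map kap m) volume h1 (SS_mp θ)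
  have h4 := congrArg (Measure.map lam) h3
  rw [Measure.map_map lam_meas kap_meas, lam_mp.map_eq] at h4
  have h5 : lam ∘ kap = id := funext lam_kap
  rwa [h5, Measure.map_id] at h4

end Pool.Agent.TH286.NF
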