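import Mathlib
import Pool.Agent.TH286.NF.UE
import Pool.Agent.TH286.NF.Fun

set_option autoImplicit false

/-!
The time-change function and its integrals along the flow.
-/

open MeasureTheory Set Filter Topology
open scoped ContDiff

namespace Pool.Agent.TH286.NF

/-- a periodic function of `q y - p x` on the nilmanifold -/
noncomputable def lft (f : ℝ → ℝ) (hf : ∀ v (m : ℤ), f (v + m) = f v) (q p : ℤ) : Nil → ℝ :=
  Quotient.lift (fun g : Heis => f (q * g.y - p * g.x)) (by
    intro g h hgh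
    obtain ⟨a, b, c, habc⟩ := QuotientGroup.rightRel_apply.1 hgh
    have h2 : h = (⟨a, b, c⟩ : Heis) * g := by rw [← habc, inv_mul_cancel_right]
    subst h2
    simp only [Heis.mul_def]
    have : (q : ℝ) * (b + g.y) - p * (a + g.x) = q * g.y - p * g.x + ((q * b - p * a : ℤ) : ℝ) := by
      push_cast
      ring
    rw [this, hf])

theorem lft_of (f : ℝ → ℝ) (hf : ∀ v (m : ℤ), f (v + m) = f v) (q p : ℤ) (g : Heis) :
    lft f hf q p (Nil.of g) = f (q * g.y - p * g.x) := rfl

variable {θ : ℝ} (D : Dat θ)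

/-- the small divisor -/
noncomputable def eta (k : ℕ) : ℝ := D.q k * θ - D.p k

/-- the transfer functions -/
noncomputable def hh (k : ℕ) : Nil → ℝ := lft (HR (D.N k)) (HR_per _) (D.q k) (D.p k)

/-- their derivatives along the flow -/
noncomputable def dd (k : ℕ) (n : Nil) : ℝ := eta D k * lft (DR (D.N k)) (DR_per _) (D.q k) (D.p k) n

/-- the time-change function -/
noncomputable def al (n : Nil) : ℝ := 2 * Real.pi + ∑' k, dd D k n

theorem eta_lt_abs (k : ℕ) : |eta D k| < dl (D.N k) (D.q k) (D.p k) := D.eta_lt k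

theorem eta_abs_pos (k : ℕ) : 0 < |eta D k| := D.eta_pos k

theorem eta_ne (k : ℕ) : eta D k ≠ 0 := abs_pos.1 (eta_abs_pos D k)

theorem N_ge (k : ℕ) : k + 1 ≤ D.N k := by
  induction k with
  | zero => exact D.N0
  | succ k ih =>
    have h1 : D.N k < D.N (k + 1) := D.mono (Nat.lt_succ_self k)
    omega

theorem two_N_le (k : ℕ) : (1 : ℝ) / 2 ^ D.N k ≤ 1 / 2 / 2 ^ k := by
  have h : (1 : ℝ) / 2 / 2 ^ k = 1 / 2 ^ (k + 1) := by
    rw [pow_succ]
    field_simp
  rw [h]
  exact one_div_le_one_div_of_le (by positivity) (pow_le_pow_right₀ (by norm_num) (N_ge D k))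

theorem summable_N : Summable (fun k => (1 : ℝ) / 2 ^ D.N k) :=
  Summable.of_nonneg_of_le (fun k => by positivity) (two_N_le D) (summable_geometric_two' 1)

theorem tsum_N : ∑' k, ((1 : ℝ) / 2 ^ D.N k) ≤ 1 := by
  have h1 : ∑' k : ℕ, ((1 : ℝ) / 2 / 2 ^ k) = 1 := tsum_geometric_two' 1
  exact ((summable_N D).tsum_le_tsum (two_N_le D) (summable_geometric_two' 1)).trans h1.le

theorem dd_of (k : ℕ) (g : Heis) : dd D k (Nil.of g) = eta D k * DR (D.N k) (D.q k * g.y - D.p k * g.x) := rfl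

theorem hh_of (k : ℕ) (g : Heis) : hh D k (Nil.of g) = HR (D.N k) (D.q k * g.y - D.p k * g.x) := rfl

theorem dd_bd (k : ℕ) (n : Nil) : |dd D k n| ≤ 1 / 2 ^ D.N k := by
  obtain ⟨g, rfl⟩ := of_surj n
  have h1 := (dl_spec (D.N k) (D.q k) (D.p k)).2.2 (eta D k) (eta_lt_abs D k) 0 (Nat.zero_le _) (g.x, g.y, g.z)
  rw [norm_iteratedFDeriv_zero] at h1
  exact h1

theorem dd_summable (n : Nil) : Summable (fun k => dd D k n) :=
  Summable.of_norm_bounded (summable_N D) (fun k => dd_bd D k n)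

theorem tsum_dd_bd (n : Nil) : |∑' k, dd D k n| ≤ 1 := by
  refine le_trans ?_ (tsum_N D)
  have h := tsum_of_norm_bounded (f := fun k => dd D k n) (summable_N D).hasSum (fun k => dd_bd D k n)
  exact h

theorem al_lower (n : Nil) : 5 ≤ al D n := by
  have h1 := (abs_le.1 (tsum_dd_bd D n)).1
  have h2 := Real.pi_gt_three
  unfold al
  linarith

theorem al_upper (n : Nil) : al D n ≤ 8 := by
  have h1 := (abs_le.1 (tsum_dd_bd D n)).2
  have h2 := Real.pi_lt_d2
  unfold al
  linarith

theorem al_pos (n : Nil) : 0 < al D n := by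
  have := al_lower D n
  linarith

theorem dd_smooth (k : ℕ) : ContDiff ℝ ∞ (fun P : ℝ × ℝ × ℝ => dd D k (Nil.of (Heis.mk P.1 P.2.1 P.2.2))) := by
  have : (fun P : ℝ × ℝ × ℝ => dd D k (Nil.of (Heis.mk P.1 P.2.1 P.2.2))) =
      fun P => eta D k * FF (D.N k) (D.q k) (D.p k) P := by
    funext P
    rfl
  rw [this]
  exact contDiff_const.mul (FF_smooth _ _ _)

theorem al_smooth : Smooth (al D) := by
  unfold Smooth al
  refine contDiff_const.add ?_
  refine contDiff_tsum_of_eventually (v := fun _ k => 1 / 2 ^ D.N k) (dd_smooth D) ?_ ?_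
  · intro j _
    exact summable_N D
  · intro j _
    rw [Nat.cofinite_eq_atTop]
    filter_upwards [eventually_ge_atTop j] with k hk P
    have h1 := N_ge D k
    exact (dl_spec (D.N k) (D.q k) (D.p k)).2.2 (eta D k) (eta_lt_abs D k) j (by omega) P

theorem al_cont3 : Continuous (fun P : ℝ × ℝ × ℝ => al D (Nil.of (Heis.mk P.1 P.2.1 P.2.2))) :=
  (al_smooth D).continuous

theorem al_meas : Measurable (al D) := by
  refine meas_nil _ ?_
  exact (al_cont3 D).measurable.comp coord_meas

theorem hh_meas (k : ℕ) : Measurable (hh D k) := by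
  refine meas_nil _ ?_
  show Measurable (fun g : Heis => HR (D.N k) (D.q k * g.y - D.p k * g.x))
  exact (HR_smooth _).continuous.measurable.comp ((measurable_const.mul y_meas).sub (measurable_const.mul x_meas))

/-! ### along the flow -/

theorem hh_fl (k : ℕ) (t : ℝ) (g : Heis) : hh D k (fl θ t (Nil.of g)) =
    HR (D.N k) (D.q k * g.y - D.p k * g.x + t * eta D k) := by
  rcases g with ⟨x, y, z⟩
  rw [fl_of, hh_of]
  congr 1
  simp only [eta]
  ring

theorem dd_fl (k : ℕ) (t : ℝ) (g : Heis) : dd D k (fl θ t (Nil.of g)) =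
    eta D k * DR (D.N k) (D.q k * g.y - D.p k * g.x + t * eta D k) := by
  rcases g with ⟨x, y, z⟩
  rw [fl_of, dd_of]
  congr 2
  simp only [eta]
  ring

theorem dd_fl_cont (k : ℕ) (n : Nil) : Continuous (fun t => dd D k (fl θ t n)) := by
  obtain ⟨g, rfl⟩ := of_surj n
  simp only [dd_fl]
  have := (DR_smooth (D.N k)).continuous
  fun_prop

theorem int_dd (k : ℕ) (t : ℝ) (n : Nil) :
    ∫ s in (0 : ℝ)..t, dd D k (fl θ s n) = hh D k (fl θ t n) - hh D k n := by
  have hc := dd_fl_cont D k n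
  obtain ⟨g, rfl⟩ := of_surj n
  have h1 : ∀ s ∈ uIcc (0 : ℝ) t, HasDerivAt (fun s => hh D k (fl θ s (Nil.of g))) (dd D k (fl θ s (Nil.of g))) s := by
    intro s _
    simp only [hh_fl, dd_fl]
    have h2 : HasDerivAt (fun s : ℝ => D.q k * g.y - D.p k * g.x + s * eta D k) (eta D k) s := by
      have := ((hasDerivAt_id s).mul_const (eta D k)).const_add ((D.q k : ℝ) * g.y - D.p k * g.x)
      simpa using this
    have h3 := (HR_deriv (D.N k) (D.q k * g.y - D.p k * g.x + s * eta D k)).comp s h2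
    rw [mul_comm (eta D k)]
    exact h3
  rw [intervalIntegral.integral_eq_sub_of_hasDerivAt h1 (hc.intervalIntegrable _ _)]
  congr 1
  rw [hh_fl, hh_of, zero_mul, add_zero]

theorem al_fl_cont (n : Nil) : Continuous (fun t => al D (fl θ t n)) := by
  obtain ⟨⟨x, y, z⟩, rfl⟩ := of_surj n
  simp only [fl_of]
  have h := al_cont3 D
  have h2 : Continuous (fun t : ℝ => ((x + t, y + t * θ, z + t ^ 2 * θ / 2 + x * (t * θ)) : ℝ × ℝ × ℝ)) := by
    fun_prop
  exact h.comp h2

/-- the time elapsed -/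
noncomputable def AA (t : ℝ) (n : Nil) : ℝ := ∫ s in (0 : ℝ)..t, al D (fl θ s n)

theorem hasSum_AA (t : ℝ) (n : Nil) :
    HasSum (fun k => hh D k (fl θ t n) - hh D k n) (AA D t n - 2 * Real.pi * t) := by
  have h1 : HasSum (fun k => ∫ s in (0 : ℝ)..t, dd D k (fl θ s n))
      (∫ s in (0 : ℝ)..t, ∑' k, dd D k (fl θ s n)) := by
    apply intervalIntegral.hasSum_integral_of_dominated_convergence (fun k _ => 1 / 2 ^ D.N k)
    · intro k
      exact (dd_fl_cont D k n).aestronglyMeasurable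
    · intro k
      exact Eventually.of_forall fun s _ => dd_bd D k _
    · exact Eventually.of_forall fun s _ => summable_N D
    · exact intervalIntegrable_const
    · exact Eventually.of_forall fun s _ => (dd_summable D _).hasSum
  simp only [int_dd] at h1
  have h2 : AA D t n - 2 * Real.pi * t = ∫ s in (0 : ℝ)..t, ∑' k, dd D k (fl θ s n) := by
    have h3 : ∀ s, ∑' k, dd D k (fl θ s n) = al D (fl θ s n) - 2 * Real.pi := by
      intro s
      unfold al
      ring
    simp only [h3]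
    rw [intervalIntegral.integral_sub ((al_fl_cont D n).intervalIntegrable _ _) intervalIntegrable_const]
    simp only [intervalIntegral.integral_const, smul_eq_mul, sub_zero, AA]
    ring
  rw [h2]
  exact h1

theorem hh_diff_bd (k : ℕ) (t : ℝ) (n : Nil) : |hh D k (fl θ t n) - hh D k n| ≤ |t| * (1 / 2 ^ D.N k) := by
  rw [← int_dd]
  have := intervalIntegral.norm_integral_le_of_norm_le_const (a := (0 : ℝ)) (b := t)
    (f := fun s => dd D k (fl θ s n)) (C := 1 / 2 ^ D.N k) (fun s _ => dd_bd D k _)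
  rw [sub_zero, mul_comm] at this
  exact this

theorem AA_bd (t : ℝ) (n : Nil) : |AA D t n - 2 * Real.pi * t| ≤ |t| := by
  have h1 : HasSum (fun k => |t| * (1 / 2 ^ D.N k)) (|t| * ∑' k, ((1 : ℝ) / 2 ^ D.N k)) :=
    (summable_N D).hasSum.mul_left _
  have h2 := tsum_of_norm_bounded (f := fun k => hh D k (fl θ t n) - hh D k n) h1 (fun k => hh_diff_bd D k t n)
  rw [(hasSum_AA D t n).tsum_eq] at h2
  refine (show |AA D t n - 2 * Real.pi * t| ≤ _ from h2).trans ?_
  calc |t| * ∑' k, ((1 : ℝ) / 2 ^ D.N k) ≤ |t| * 1 := mul_le_mul_of_nonneg_left (tsum_N D) (abs_nonneg _)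
    _ = |t| := mul_one _

end Pool.Agent.TH286.NF
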