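import Mathlib
import Pool.Agent.TH286.NF.Al

set_option autoImplicit false

/-!
The time-change is not measurably trivial.
-/

open MeasureTheory Set Filter Topology
open scoped ContDiff

namespace Pool.Agent.TH286.NF

variable {θ : ℝ} (D : Dat θ)

/-! ### the circle coordinate -/

/-- the circle coordinate `q y - p x` -/
noncomputable def vv (k : ℕ) (n : Nil) : UC := D.q k • (kap n).2.1 - D.p k • (kap n).1

theorem vv_of (k : ℕ) (g : Heis) : vv D k (Nil.of g) = ((D.q k * g.y - D.p k * g.x : ℝ) : UC) := by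
  unfold vv
  rw [kap_of]
  simp only [kap0]
  rw [AddCircle.coe_sub, ← AddCircle.coe_zsmul, ← AddCircle.coe_zsmul, zsmul_eq_mul, zsmul_eq_mul]

theorem q_ne (k : ℕ) : D.q k ≠ 0 := by
  intro h
  have h1 := eta_abs_pos D k
  have h2 := eta_lt_abs D k
  have h3 := (dl_spec (D.N k) (D.q k) (D.p k)).2.1
  have h4 : (1 : ℝ) / 2 ^ D.N k ≤ 1 := by
    rw [div_le_one (by positivity)]
    exact one_le_pow₀ (by norm_num)
  unfold eta at h1 h2
  rw [h] at h1 h2
  simp only [Int.cast_zero, zero_mul, zero_sub, abs_neg] at h1 h2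
  have h5 : D.p k ≠ 0 := by
    intro h6
    rw [h6] at h1
    simp at h1
  have h6 : (1 : ℝ) ≤ |(D.p k : ℝ)| := by
    have := Int.one_le_abs h5
    exact_mod_cast this
  rw [h] at h3
  linarith

theorem vv_meas (k : ℕ) : Measurable (vv D k) := by
  unfold vv
  have h1 : Measurable (fun n : Nil => (kap n).2.1) := measurable_fst.comp (measurable_snd.comp kap_meas)
  have h2 : Measurable (fun n : Nil => (kap n).1) := measurable_fst.comp kap_meas
  have h3 : ∀ m : ℤ, Measurable (fun v : UC => m • v) := fun m =>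
    (continuous_zsmul m).measurable
  exact ((h3 _).comp h1).sub ((h3 _).comp h2)

theorem vv_mp (k : ℕ) : MeasurePreserving (vv D k) haar volume := by
  have h0 : MeasurePreserving (fun p : UC × (UC × UC) => (p.1, p.2.1))
      ((volume : Measure UC).prod ((volume : Measure UC).prod (volume : Measure UC)))
      ((volume : Measure UC).prod (volume : Measure UC)) :=
    (MeasurePreserving.id _).prod measurePreserving_fst
  have h1 : MeasurePreserving (fun v : UC => D.q k • v) volume volume :=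
    Measure.measurePreserving_zsmul volume (q_ne D k)
  have h2 : MeasurePreserving (fun p : UC × UC => (p.1, D.q k • p.2 - D.p k • p.1))
      ((volume : Measure UC).prod (volume : Measure UC)) ((volume : Measure UC).prod (volume : Measure UC)) := by
    refine MeasurePreserving.skew_product (MeasurePreserving.id _)
      (g := fun (x : UC) (y : UC) => D.q k • y - D.p k • x) ?_ ?_
    · have h3 : ∀ m : ℤ, Measurable (fun v : UC => m • v) := fun m =>
        (continuous_zsmul m).measurable
      exact ((h3 _).comp measurable_snd).sub ((h3 _).comp measurable_fst)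
    · refine Eventually.of_forall fun x => ?_
      exact ((measurePreserving_sub_right volume (D.p k • x)).comp h1).map_eq
  have h3 : MeasurePreserving (fun p : T3 => D.q k • p.2.1 - D.p k • p.1) (volume : Measure T3) volume :=
    measurePreserving_snd.comp (h2.comp h0)
  exact h3.comp kap_mp

/-- the profile on the circle -/
noncomputable def HC (N : ℕ) (v : UC) : ℝ := 2 * Real.pi * 4 ^ N * Real.smoothTransition (2 ^ N * co v)

theorem hh_eq (k : ℕ) (n : Nil) : hh D k n = HC (D.N k) (vv D k n) := by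
  obtain ⟨g, rfl⟩ := of_surj n
  rw [vv_of, hh_of, HC, co_coe]
  rfl

theorem hh_nonneg (k : ℕ) (n : Nil) : 0 ≤ hh D k n := by
  rw [hh_eq]
  unfold HC
  have := Real.smoothTransition.nonneg (2 ^ D.N k * co (vv D k n))
  have := Real.pi_pos
  positivity

theorem hh_le (k : ℕ) (n : Nil) : hh D k n ≤ 2 * Real.pi * 4 ^ D.N k := by
  rw [hh_eq]
  unfold HC
  have h1 := Real.smoothTransition.le_one (2 ^ D.N k * co (vv D k n))
  have := Real.pi_pos
  exact mul_le_of_le_one_right (by positivity) h1

theorem hh_zero (k : ℕ) (n : Nil) (h : co (vv D k n) ≤ 0) : hh D k n = 0 := by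
  rw [hh_eq]
  unfold HC
  rw [Real.smoothTransition.zero_of_nonpos (mul_nonpos_of_nonneg_of_nonpos (by positivity) h), mul_zero]

theorem hh_top (k : ℕ) (n : Nil) (h : 1 / 2 ^ D.N k ≤ co (vv D k n)) : hh D k n = 2 * Real.pi * 4 ^ D.N k := by
  rw [hh_eq]
  unfold HC
  rw [Real.smoothTransition.one_of_one_le, mul_one]
  rw [div_le_iff₀ (by positivity)] at h
  linarith

theorem vv_fl (k : ℕ) (t : ℝ) (n : Nil) : vv D k (fl θ t n) = vv D k n + ((t * eta D k : ℝ) : UC) := by
  obtain ⟨⟨x, y, z⟩, rfl⟩ := of_surj n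
  rw [fl_of, vv_of, vv_of, ← AddCircle.coe_add]
  congr 1
  simp only [eta]
  ring

/-- the critical time -/
noncomputable def tc (k : ℕ) : ℝ := 1 / (2 * eta D k)

theorem co_half (v : UC) : co (v + ((1 / 2 : ℝ) : UC)) = - co v := by
  obtain ⟨w, rfl⟩ : ∃ w : ℝ, (w : UC) = v := ⟨rep v, coe_rep v⟩
  rw [← AddCircle.coe_add, co_coe, co_coe]
  have : 2 * Real.pi * (w + 1 / 2) = 2 * Real.pi * w + Real.pi := by ring
  rw [this, Real.cos_add_pi]

theorem co_tc (k : ℕ) (n : Nil) : co (vv D k (fl θ (tc D k) n)) = - co (vv D k n) := by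
  rw [vv_fl]
  have : tc D k * eta D k = 1 / 2 := by
    unfold tc
    have := eta_ne D k
    field_simp
  rw [this, co_half]

theorem half_ge (k : ℕ) : (1 : ℝ) / 2 ^ D.N k ≤ 1 / 2 := by
  have h1 : 1 ≤ D.N k := by
    have := N_ge D k
    omega
  have h2 : (1 : ℝ) / 2 ^ D.N k ≤ 1 / 2 ^ 1 :=
    one_div_le_one_div_of_le (by positivity) (pow_le_pow_right₀ (by norm_num) h1)
  simpa using h2

theorem sum_four (k : ℕ) : 3 * ∑ j ∈ Finset.range k, (4 : ℝ) ^ D.N j ≤ 4 ^ D.N k := by
  induction k with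
  | zero => simp
  | succ k ih =>
    rw [Finset.sum_range_succ]
    have h1 : (4 : ℝ) ^ (D.N k + 1) ≤ 4 ^ D.N (k + 1) :=
      pow_le_pow_right₀ (by norm_num) (D.mono (Nat.lt_succ_self k))
    rw [pow_succ] at h1
    linarith

/-- the part of the series other than the term `k` is comparatively small at the critical time -/
theorem rest_bd (k : ℕ) (n : Nil) :
    |AA D (tc D k) n - 2 * Real.pi * tc D k - (hh D k (fl θ (tc D k) n) - hh D k n)| ≤
      2 * Real.pi * (4 ^ D.N k / 3) + 1 / 4 := by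
  set t := tc D k with ht
  set f : ℕ → ℝ := fun j => hh D j (fl θ t n) - hh D j n with hf
  have hs : HasSum f (AA D t n - 2 * Real.pi * t) := hasSum_AA D t n
  have h1 := hs.summable.sum_add_tsum_nat_add (k + 1)
  rw [hs.tsum_eq, Finset.sum_range_succ] at h1
  have h2 : AA D t n - 2 * Real.pi * t - (hh D k (fl θ t n) - hh D k n) =
      ∑ j ∈ Finset.range k, f j + ∑' j, f (j + (k + 1)) := by
    have : hh D k (fl θ t n) - hh D k n = f k := rfl
    rw [this]
    linarith
  rw [h2]
  refine (abs_add_le _ _).trans (add_le_add ?_ ?_)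
  · refine (Finset.abs_sum_le_sum_abs _ _).trans ?_
    have h3 : ∀ j ∈ Finset.range k, |f j| ≤ 2 * Real.pi * 4 ^ D.N j := by
      intro j _
      have a1 := hh_nonneg D j n
      have a2 := hh_le D j n
      have a3 := hh_nonneg D j (fl θ t n)
      have a4 := hh_le D j (fl θ t n)
      simp only [hf]
      rw [abs_le]
      constructor <;> linarith
    refine (Finset.sum_le_sum h3).trans ?_
    rw [← Finset.mul_sum]
    have h4 := sum_four D k
    have := Real.pi_pos
    refine mul_le_mul_of_nonneg_left ?_ (by positivity)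
    linarith
  · have h3 : ∀ j, ‖f (j + (k + 1))‖ ≤ |t| * (1 / 2 ^ D.N (k + 1)) * (1 / 2) ^ j := by
      intro j
      refine (hh_diff_bd D (j + (k + 1)) t n).trans ?_
      rw [mul_assoc]
      refine mul_le_mul_of_nonneg_left ?_ (abs_nonneg _)
      have e1 : (1 : ℝ) / 2 ^ D.N (k + 1) * (1 / 2) ^ j = 1 / 2 ^ (D.N (k + 1) + j) := by
        rw [one_div_pow, pow_add]
        field_simp
      rw [e1]
      refine one_div_le_one_div_of_le (by positivity) (pow_le_pow_right₀ (by norm_num) ?_)
      have := D.mono.add_le_nat j (k + 1)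
      omega
    have h4 : HasSum (fun j : ℕ => |t| * (1 / 2 ^ D.N (k + 1)) * (1 / 2 : ℝ) ^ j)
        (|t| * (1 / 2 ^ D.N (k + 1)) * 2) := hasSum_geometric_two.mul_left _
    have h5 := tsum_of_norm_bounded h4 h3
    refine (show |∑' j, f (j + (k + 1))| ≤ _ from h5).trans ?_
    have h6 : (1 : ℝ) / 2 ^ D.N (k + 1) ≤ |eta D k| / 4 := D.next k
    have h7 := eta_abs_pos D k
    have h8 : |t| = 1 / (2 * |eta D k|) := by
      rw [ht, tc, abs_div, abs_one, abs_mul, abs_two]
    rw [h8]
    calc 1 / (2 * |eta D k|) * (1 / 2 ^ D.N (k + 1)) * 2 ≤ 1 / (2 * |eta D k|) * (|eta D k| / 4) * 2 := by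
          gcongr
      _ = 1 / 4 := by
          field_simp

theorem up (k : ℕ) (n : Nil) (h : co (vv D k n) ≤ -(1 / 2)) :
    4 * 4 ^ D.N k - 1 / 4 ≤ AA D (tc D k) n - 2 * Real.pi * tc D k := by
  have h1 := (abs_le.1 (rest_bd D k n)).1
  have h2 : hh D k n = 0 := hh_zero D k n (by linarith)
  have h3 : hh D k (fl θ (tc D k) n) = 2 * Real.pi * 4 ^ D.N k := by
    apply hh_top
    rw [co_tc]
    have := half_ge D k
    linarith
  rw [h2, h3] at h1
  have h4 := Real.pi_gt_three
  have h5 : (0 : ℝ) < 4 ^ D.N k := by positivity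
  have h6 : 0 < (Real.pi - 3) * 4 ^ D.N k := mul_pos (by linarith) h5
  linarith

theorem down (k : ℕ) (n : Nil) (h : 1 / 2 ≤ co (vv D k n)) :
    AA D (tc D k) n - 2 * Real.pi * tc D k ≤ -(4 * 4 ^ D.N k) + 1 / 4 := by
  have h1 := (abs_le.1 (rest_bd D k n)).2
  have h2 : hh D k (fl θ (tc D k) n) = 0 := by
    apply hh_zero
    rw [co_tc]
    linarith
  have h3 : hh D k n = 2 * Real.pi * 4 ^ D.N k := by
    apply hh_top
    have := half_ge D k
    linarith
  rw [h2, h3] at h1
  have h4 := Real.pi_gt_three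
  have h5 : (0 : ℝ) < 4 ^ D.N k := by positivity
  have h6 : 0 < (Real.pi - 3) * 4 ^ D.N k := mul_pos (by linarith) h5
  linarith

/-! ### the two sets are not small -/

theorem vol_lower {S : Set UC} (hS : MeasurableSet S) (a b : ℝ) (ha : 0 ≤ a) (hb : b ≤ 1) (hab : a ≤ b)
    (h : ∀ v : ℝ, a ≤ v → v ≤ b → (v : UC) ∈ S) : b - a ≤ (volume : Measure UC).real S := by
  rw [Measure.real, ← mk_mp.measure_preimage hS.nullMeasurableSet, ← Measure.real]
  rw [measureReal_restrict_apply (hS.preimage coe_meas)]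
  have h1 : (volume : Measure ℝ).real (Ioc a b) = b - a := by
    rw [Measure.real, Real.volume_Ioc, ENNReal.toReal_ofReal (by linarith)]
  rw [← h1]
  refine measureReal_mono ?_ ?_
  · intro v hv
    exact ⟨h v hv.1.le hv.2, ⟨lt_of_le_of_lt ha hv.1, hv.2.trans hb⟩⟩
  · exact ((measure_mono inter_subset_right).trans_lt (by simp)).ne

theorem vol_up : 1 / 8 ≤ (volume : Measure UC).real {v | 1 / 2 ≤ co v} := by
  have h := vol_lower (S := {v | 1 / 2 ≤ co v}) (measurableSet_le measurable_const co_cont.measurable) 0 (1 / 8)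
    le_rfl (by norm_num) (by norm_num) ?_
  · linarith
  · intro v h1 h2
    show 1 / 2 ≤ co _
    rw [co_coe]
    have := Real.pi_pos
    refine Real.cos_pi_div_three.ge.trans ?_
    apply Real.cos_le_cos_of_nonneg_of_le_pi (by positivity) (by linarith)
    nlinarith

theorem vol_down : 1 / 8 ≤ (volume : Measure UC).real {v | co v ≤ -(1 / 2)} := by
  have h := vol_lower (S := {v | co v ≤ -(1 / 2)}) (measurableSet_le co_cont.measurable measurable_const)
    (1 / 2) (5 / 8) (by norm_num) (by norm_num) (by norm_num) ?_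
  · linarith
  · intro v h1 h2
    show co _ ≤ -(1 / 2)
    have h3 : (v : UC) = ((v - 1 / 2 : ℝ) : UC) + ((1 / 2 : ℝ) : UC) := by
      rw [← AddCircle.coe_add]
      congr 1
      ring
    rw [h3, co_half, co_coe]
    have := Real.pi_pos
    apply neg_le_neg
    refine Real.cos_pi_div_three.ge.trans ?_
    apply Real.cos_le_cos_of_nonneg_of_le_pi (by nlinarith) (by linarith)
    nlinarith

theorem haar_up (k : ℕ) : 1 / 8 ≤ haar.real {n | 1 / 2 ≤ co (vv D k n)} := by
  have h1 := (vv_mp D k).measure_preimage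
    (measurableSet_le measurable_const co_cont.measurable : MeasurableSet {v : UC | 1 / 2 ≤ co v}).nullMeasurableSet
  have h2 := vol_up
  rw [Measure.real, ← h1] at h2
  exact h2

theorem haar_down (k : ℕ) : 1 / 8 ≤ haar.real {n | co (vv D k n) ≤ -(1 / 2)} := by
  have h1 := (vv_mp D k).measure_preimage
    (measurableSet_le co_cont.measurable measurable_const : MeasurableSet {v : UC | co v ≤ -(1 / 2)}).nullMeasurableSet
  have h2 := vol_down
  rw [Measure.real, ← h1] at h2
  exact h2

theorem exists_good {P B : Set Nil} {E : Nil → Prop} (hE : ∀ᵐ n ∂haar, E n) (h : haar.real B < haar.real P) :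
    ∃ n ∈ P, n ∉ B ∧ E n := by
  by_contra hc
  push Not at hc
  have h1 : haar P ≤ haar B := by
    apply measure_mono_ae
    filter_upwards [hE] with n hn hP
    by_contra hB
    exact hc n hP hB hn
  have h2 : haar.real P ≤ haar.real B := ENNReal.toReal_mono (measure_ne_top _ _) h1
  linarith

theorem tail_small (u : Nil → ℝ) (hu : Measurable u) (ε : ℝ) (hε : 0 < ε) :
    ∃ R : ℕ, haar.real {n | (R : ℝ) < |u n|} < ε := by
  have hanti : Antitone (fun R : ℕ => {n | (R : ℝ) < |u n|}) := by
    intro a b hab n hn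
    have h1 : (b : ℝ) < |u n| := hn
    have h2 : (a : ℝ) ≤ b := by exact_mod_cast hab
    exact lt_of_le_of_lt h2 h1
  have hm : ∀ R : ℕ, MeasurableSet {n | (R : ℝ) < |u n|} := fun R =>
    measurableSet_lt measurable_const hu.abs
  have h1 : Tendsto (fun R : ℕ => haar {n | (R : ℝ) < |u n|}) atTop
      (𝓝 (haar (⋂ R : ℕ, {n | (R : ℝ) < |u n|}))) :=
    tendsto_measure_iInter_atTop (fun R => (hm R).nullMeasurableSet) hanti ⟨0, measure_ne_top _ _⟩
  have h2 : (⋂ R : ℕ, {n | (R : ℝ) < |u n|}) = ∅ := by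
    ext n
    simp only [mem_iInter, mem_ofPred_eq, mem_empty_iff_false, iff_false, not_forall, not_lt]
    exact exists_nat_ge _
  rw [h2, measure_empty] at h1
  have h3 := (ENNReal.tendsto_toReal (by simp : (0 : ENNReal) ≠ ⊤)).comp h1
  have h4 : ∀ᶠ R : ℕ in atTop, haar.real {n | (R : ℝ) < |u n|} < ε :=
    h3.eventually (gt_mem_nhds (by simpa using hε))
  exact h4.exists

/-- **Non-triviality** -/
theorem nontriv : ¬ MeasurablyTrivial (fl θ) (al D) := by
  rintro ⟨c, u, hu, h⟩
  obtain ⟨R, hR⟩ := tail_small u hu (1 / 32) (by norm_num)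
  obtain ⟨k, hk⟩ := exists_nat_gt (4 * (R : ℝ))
  set t := tc D k with ht
  set B0 : Set Nil := {n | (R : ℝ) < |u n|} with hB0
  have hB0m : MeasurableSet B0 := measurableSet_lt measurable_const hu.abs
  set B : Set Nil := B0 ∪ (fl θ t) ⁻¹' B0 with hB
  have hBs : haar.real B ≤ 1 / 16 := by
    refine (measureReal_union_le _ _).trans ?_
    have h1 : haar.real ((fl θ t) ⁻¹' B0) = haar.real B0 := by
      rw [Measure.real, (fl_mp θ t).measure_preimage hB0m.nullMeasurableSet, ← Measure.real]
    rw [h1]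
    linarith
  have hE : ∀ᵐ n ∂haar, u (fl θ t n) - u n = AA D t n - c * t := by
    filter_upwards [h t] with n hn
    rw [hn, intervalIntegral.integral_sub ((al_fl_cont D n).intervalIntegrable _ _) intervalIntegrable_const]
    simp only [intervalIntegral.integral_const, smul_eq_mul, sub_zero, AA]
    ring
  obtain ⟨n1, hn1, hn1B, hn1E⟩ := exists_good hE (lt_of_le_of_lt hBs (lt_of_lt_of_le (by norm_num) (haar_down D k)))
  obtain ⟨n2, hn2, hn2B, hn2E⟩ := exists_good hE (lt_of_le_of_lt hBs (lt_of_lt_of_le (by norm_num) (haar_up D k)))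
  have h1 := up D k n1 hn1
  have h2 := down D k n2 hn2
  rw [← ht] at h1 h2
  have hb : ∀ n, n ∉ B → |u n| ≤ R ∧ |u (fl θ t n)| ≤ R := by
    intro n hn
    constructor
    · by_contra hc
      exact hn (Or.inl (not_le.1 hc))
    · by_contra hc
      exact hn (Or.inr (not_le.1 hc))
  obtain ⟨a1, a2⟩ := hb n1 hn1B
  obtain ⟨b1, b2⟩ := hb n2 hn2B
  rw [abs_le] at a1 a2 b1 b2
  have h5 : (k : ℝ) + 1 ≤ 4 ^ D.N k := by
    have e1 : k + 1 ≤ 4 ^ D.N k := by
      refine (N_ge D k).trans (le_of_lt ?_)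
      exact Nat.lt_pow_self (by norm_num)
    exact_mod_cast e1
  linarith

end Pool.Agent.TH286.NF
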