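import Mathlib
import Pool.Agent.TH286.NF.NT

set_option autoImplicit false

/-!
The time-changed flow.
-/

open MeasureTheory Set Filter Topology
open scoped ContDiff

namespace Pool.Agent.TH286.NF

theorem fl_add (θ s t : ℝ) (n : Nil) : fl θ (s + t) n = fl θ s (fl θ t n) := by
  obtain ⟨⟨x, y, z⟩, rfl⟩ := of_surj n
  rw [fl_of, fl_of, fl_of]
  congr 1
  ext
  · show x + (s + t) = x + t + s
    ring
  · show y + (s + t) * θ = y + t * θ + s * θ
    ring
  · show z + (s + t) ^ 2 * θ / 2 + x * ((s + t) * θ) =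
      z + t ^ 2 * θ / 2 + x * (t * θ) + s ^ 2 * θ / 2 + (x + t) * (s * θ)
    ring

theorem fl_zero (θ : ℝ) (n : Nil) : fl θ 0 n = n := by
  obtain ⟨⟨x, y, z⟩, rfl⟩ := of_surj n
  rw [fl_of]
  congr 1
  ext <;> simp

/-- joint measurability of the flow -/
theorem fl_meas2 (θ : ℝ) : Measurable (fun p : ℝ × Nil => fl θ p.1 p.2) := by
  have h1 : (fun p : ℝ × Nil => fl θ p.1 p.2) = fun p => lam (SS θ p.1 (kap p.2)) := by
    funext p
    rw [← kap_fl, lam_kap]
  rw [h1]
  refine lam_meas.comp ?_
  unfold SS cc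
  have k1 : Measurable (fun p : ℝ × Nil => (kap p.2).1) := measurable_fst.comp (kap_meas.comp measurable_snd)
  have k2 : Measurable (fun p : ℝ × Nil => (kap p.2).2.1) :=
    measurable_fst.comp (measurable_snd.comp (kap_meas.comp measurable_snd))
  have k3 : Measurable (fun p : ℝ × Nil => (kap p.2).2.2) :=
    measurable_snd.comp (measurable_snd.comp (kap_meas.comp measurable_snd))
  have r1 := rep_meas.comp k1
  have r2 := rep_meas.comp k2
  have t1 : Measurable (fun p : ℝ × Nil => p.1) := measurable_fst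
  have f1 : Measurable (fun p : ℝ × Nil => ((⌊rep (kap p.2).1 + p.1⌋ : ℤ) : ℝ)) :=
    (measurable_from_top (f := fun n : ℤ => (n : ℝ))).comp (Int.measurable_floor.comp (r1.add t1))
  refine (k1.add (coe_meas.comp t1)).prodMk ((k2.add (coe_meas.comp (t1.mul_const θ))).prodMk (k3.add (coe_meas.comp ?_)))
  exact ((((t1.pow_const 2).mul_const θ).div_const 2).add (r1.mul (t1.mul_const θ))).sub
    (f1.mul (r2.add (t1.mul_const θ)))

variable {θ : ℝ} (D : Dat θ)

theorem AA_zero (n : Nil) : AA D 0 n = 0 := intervalIntegral.integral_same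

theorem AA_add (s t : ℝ) (n : Nil) : AA D (s + t) n = AA D t n + AA D s (fl θ t n) := by
  unfold AA
  have h1 : ∫ r in (0 : ℝ)..s, al D (fl θ r (fl θ t n)) = ∫ r in t..(s + t), al D (fl θ r n) := by
    have := intervalIntegral.integral_comp_add_right (fun r => al D (fl θ r n)) (a := 0) (b := s) t
    simp only [fl_add, zero_add] at this
    exact this
  rw [h1, intervalIntegral.integral_add_adjacent_intervals]
  · exact (al_fl_cont D n).intervalIntegrable _ _
  · exact (al_fl_cont D n).intervalIntegrable _ _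

theorem AA_deriv (n : Nil) (t : ℝ) : HasDerivAt (fun t => AA D t n) (al D (fl θ t n)) t :=
  (al_fl_cont D n).integral_hasStrictDerivAt 0 t |>.hasDerivAt

theorem AA_cont (n : Nil) : Continuous (fun t => AA D t n) :=
  continuous_iff_continuousAt.2 fun t => (AA_deriv D n t).continuousAt

theorem AA_mono (n : Nil) : StrictMono (fun t => AA D t n) := by
  apply strictMono_of_deriv_pos
  intro t
  rw [(AA_deriv D n t).deriv]
  exact al_pos D _

theorem AA_surj (n : Nil) : Function.Surjective (fun t => AA D t n) := by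
  apply (AA_cont D n).surjective
  · refine tendsto_atTop_mono' atTop ?_ tendsto_id
    filter_upwards [eventually_ge_atTop 0] with t ht
    have h1 := (abs_le.1 (AA_bd D t n)).1
    rw [abs_of_nonneg ht] at h1
    have h2 := Real.pi_gt_three
    simp only [id]
    nlinarith
  · refine tendsto_atBot_mono' atBot ?_ tendsto_id
    filter_upwards [eventually_le_atBot 0] with t ht
    have h1 := (abs_le.1 (AA_bd D t n)).2
    rw [abs_of_nonpos ht] at h1
    have h2 := Real.pi_gt_three
    simp only [id]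
    nlinarith

/-- the elapsed time as an order isomorphism of the line -/
noncomputable def AO (n : Nil) : ℝ ≃o ℝ := (AA_mono D n).orderIsoOfSurjective _ (AA_surj D n)

theorem AO_apply (n : Nil) (t : ℝ) : AO D n t = AA D t n := rfl

/-- the inverse -/
noncomputable def tau (t : ℝ) (n : Nil) : ℝ := (AO D n).symm t

theorem AA_tau (t : ℝ) (n : Nil) : AA D (tau D t n) n = t := (AO D n).apply_symm_apply t

theorem tau_AA (t : ℝ) (n : Nil) : tau D (AA D t n) n = t := (AO D n).symm_apply_apply t

/-- the time-changed flow -/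
noncomputable def ps (t : ℝ) (n : Nil) : Nil := fl θ (tau D t n) n

theorem ps_AA (t : ℝ) (n : Nil) : ps D (AA D t n) n = fl θ t n := by
  unfold ps
  rw [tau_AA]

theorem ps_tc : IsTimeChange (fl θ) (ps D) (al D) := fun n t => ps_AA D t n

theorem ps_flow : IsFlow (ps D) := by
  constructor
  · intro n
    have := ps_AA D 0 n
    rwa [AA_zero, fl_zero] at this
  · intro s t n
    have h1 : ps D t n = fl θ (tau D t n) n := rfl
    rw [h1]
    have h2 : ps D s (fl θ (tau D t n) n) = fl θ (tau D s (fl θ (tau D t n) n)) (fl θ (tau D t n) n) := rfl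
    rw [h2, ← fl_add, ← ps_AA, AA_add, AA_tau, AA_tau, add_comm]

/-! ### measurability -/

theorem AA_meas (t : ℝ) : Measurable (AA D t) := by
  have h1 : Measurable (fun n => AA D t n - 2 * Real.pi * t) := by
    refine measurable_of_tendsto_metrizable (f := fun k n => ∑ j ∈ Finset.range k, (hh D j (fl θ t n) - hh D j n)) ?_ ?_
    · intro k
      exact Finset.measurable_sum _ fun j _ => ((hh_meas D j).comp (fl_mp θ t).measurable).sub (hh_meas D j)
    · rw [tendsto_pi_nhds]
      intro n
      exact (hasSum_AA D t n).tendsto_sum_nat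
  have h2 : AA D t = fun n => (AA D t n - 2 * Real.pi * t) + 2 * Real.pi * t := by
    funext n
    ring
  rw [h2]
  exact h1.add_const (2 * Real.pi * t)

theorem AA_meas2 : Measurable (fun p : ℝ × Nil => AA D p.1 p.2) :=
  measurable_uncurry_of_continuous_of_measurable (u := fun t n => AA D t n) (AA_cont D) (AA_meas D)

theorem tau_le (a t : ℝ) (n : Nil) : tau D t n ≤ a ↔ t ≤ AA D a n := by
  rw [← AO_apply]
  exact (AO D n).symm_apply_le

theorem tau_meas (t : ℝ) : Measurable (tau D t) := by
  refine measurable_of_Iic fun a => ?_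
  have : tau D t ⁻¹' Iic a = {n | t ≤ AA D a n} := by
    ext n
    exact tau_le D a t n
  rw [this]
  exact measurableSet_le measurable_const (AA_meas D a)

theorem tau_cont (n : Nil) : Continuous (fun t => tau D t n) := (AO D n).symm.continuous

theorem tau_meas2 : Measurable (fun p : ℝ × Nil => tau D p.1 p.2) :=
  measurable_uncurry_of_continuous_of_measurable (u := fun t n => tau D t n) (tau_cont D) (tau_meas D)

theorem ps_meas2 : Measurable (fun p : ℝ × Nil => ps D p.1 p.2) :=
  (fl_meas2 θ).comp ((tau_meas2 D).prodMk measurable_snd)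

theorem ps_meas (t : ℝ) : Measurable (ps D t) := by
  have h : Measurable (fun n : Nil => ((t, n) : ℝ × Nil)) := measurable_const.prodMk measurable_id
  have h2 := Measurable.comp (g := fun p : ℝ × Nil => ps D p.1 p.2) (ps_meas2 D) h
  have h3 : ((fun p : ℝ × Nil => ps D p.1 p.2) ∘ (fun n : Nil => ((t, n) : ℝ × Nil))) = fun n => ps D t n := by
    funext n
    rfl
  rw [h3] at h2
  exact h2

/-! ### the invariant measure -/

/-- the density -/
noncomputable def den (n : Nil) : ENNReal := ENNReal.ofReal (al D n)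

theorem den_meas : Measurable (den D) := (al_meas D).ennreal_ofReal

/-- the integral in `s` -/
theorem inner (f : Nil → ENNReal) (t S : ℝ) (n : Nil) :
    ∫⁻ s in Ioc 0 S, f (ps D t (fl θ s n)) * den D (fl θ s n) = ∫⁻ r in Ioc 0 (AA D S n), f (ps D (t + r) n) := by
  have h1 : Ioc 0 (AA D S n) = (fun s => AA D s n) '' Ioc 0 S := by
    have h2 := (AO D n).image_Ioc 0 S
    have h3 : AO D n 0 = 0 := by rw [AO_apply, AA_zero]
    rw [h3] at h2
    exact h2.symm
  rw [h1, lintegral_image_eq_lintegral_abs_deriv_mul measurableSet_Ioc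
    (fun s _ => (AA_deriv D n s).hasDerivWithinAt) ((AA_mono D n).injective.injOn)]
  refine lintegral_congr fun s => ?_
  rw [abs_of_pos (al_pos D _), mul_comm, (ps_flow D).2 t, ps_AA]
  rfl

theorem inner_le (f : Nil → ENNReal) (hf : ∀ n, f n ≤ 1) (t S : ℝ) (n : Nil) :
    ∫⁻ r in Ioc 0 (AA D S n), f (ps D (t + r) n) ≤
      (∫⁻ r in Ioc 0 (AA D S n), f (ps D r n)) + ENNReal.ofReal |t| := by
  have h1 : ∫⁻ r in Ioc 0 (AA D S n), f (ps D (t + r) n) = ∫⁻ r in Ioc t (t + AA D S n), f (ps D r n) := by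
    have h2 : Ioc t (t + AA D S n) = (fun r => t + r) '' Ioc 0 (AA D S n) := by
      rw [image_const_add_Ioc, add_zero]
    rw [h2, lintegral_image_eq_lintegral_abs_deriv_mul (f := fun r => t + r) (f' := fun _ => 1) measurableSet_Ioc
      (fun s _ => ((hasDerivAt_id s).const_add t).hasDerivWithinAt) ((add_right_injective t).injOn)]
    simp
  rw [h1]
  have h3 : Ioc t (t + AA D S n) ⊆ Ioc 0 (AA D S n) ∪ (Ioc t 0 ∪ Ioc (AA D S n) (t + AA D S n)) := by
    intro r hr
    by_cases h4 : r ≤ 0
    · exact Or.inr (Or.inl ⟨hr.1, h4⟩)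
    · by_cases h5 : r ≤ AA D S n
      · exact Or.inl ⟨not_le.1 h4, h5⟩
      · exact Or.inr (Or.inr ⟨not_le.1 h5, hr.2⟩)
  refine (lintegral_mono_set h3).trans ((lintegral_union_le _ _ _).trans (add_le_add le_rfl ?_))
  calc ∫⁻ r in Ioc t 0 ∪ Ioc (AA D S n) (t + AA D S n), f (ps D r n) ≤
      ∫⁻ r in Ioc t 0 ∪ Ioc (AA D S n) (t + AA D S n), 1 := lintegral_mono fun r => hf _
    _ = volume (Ioc t 0 ∪ Ioc (AA D S n) (t + AA D S n)) := by simp
    _ ≤ ENNReal.ofReal |t| := by
      rcases le_total 0 t with h | h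
      · rw [Ioc_eq_empty (not_lt.2 h), empty_union, Real.volume_Ioc, abs_of_nonneg h]
        apply le_of_eq
        congr 1
        ring
      · have e : Ioc (AA D S n) (t + AA D S n) = ∅ := Ioc_eq_empty (by linarith)
        rw [e, union_empty, Real.volume_Ioc, abs_of_nonpos h]
        apply le_of_eq
        congr 1
        ring

theorem avg (f : Nil → ENNReal) (hf : Measurable f) (t S : ℝ) :
    ENNReal.ofReal S * ∫⁻ n, f (ps D t n) * den D n ∂haar =
      ∫⁻ n, (∫⁻ s in Ioc 0 S, f (ps D t (fl θ s n)) * den D (fl θ s n)) ∂haar := by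
  have hm : Measurable (fun n => f (ps D t n) * den D n) := (hf.comp (ps_meas D t)).mul (den_meas D)
  have h1 : ∀ s, ∫⁻ n, f (ps D t (fl θ s n)) * den D (fl θ s n) ∂haar = ∫⁻ n, f (ps D t n) * den D n ∂haar :=
    fun s => (fl_mp θ s).lintegral_comp hm
  rw [lintegral_lintegral_swap]
  · simp only [h1]
    rw [setLIntegral_const, Real.volume_Ioc, sub_zero, mul_comm]
  · refine Measurable.aemeasurable ?_
    exact hm.comp ((fl_meas2 θ).comp measurable_swap)

theorem int_le (f : Nil → ENNReal) (hf : Measurable f) (hf1 : ∀ n, f n ≤ 1) (t : ℝ) :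
    ∫⁻ n, f (ps D t n) * den D n ∂haar ≤ ∫⁻ n, f n * den D n ∂haar := by
  have key : ∀ S : ℝ, 0 < S → ∫⁻ n, f (ps D t n) * den D n ∂haar ≤
      (∫⁻ n, f n * den D n ∂haar) + ENNReal.ofReal (|t| / S) := by
    intro S hS
    have h1 := avg D f hf t S
    have h2 := avg D f hf 0 S
    simp only [inner] at h1 h2
    simp only [(ps_flow D).1, zero_add] at h2
    have h3 : ∫⁻ n, (∫⁻ r in Ioc 0 (AA D S n), f (ps D (t + r) n)) ∂haar ≤
        (∫⁻ n, (∫⁻ r in Ioc 0 (AA D S n), f (ps D r n)) ∂haar) + ENNReal.ofReal |t| := by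
      calc ∫⁻ n, (∫⁻ r in Ioc 0 (AA D S n), f (ps D (t + r) n)) ∂haar ≤
          ∫⁻ n, ((∫⁻ r in Ioc 0 (AA D S n), f (ps D r n)) + ENNReal.ofReal |t|) ∂haar :=
            lintegral_mono fun n => inner_le D f hf1 t S n
        _ = _ := by
          rw [lintegral_add_right _ measurable_const]
          simp
    rw [← h1, ← h2] at h3
    have hS0 : ENNReal.ofReal S ≠ 0 := by simpa using hS
    have hSt : ENNReal.ofReal S ≠ ⊤ := ENNReal.ofReal_ne_top
    have h4 : ENNReal.ofReal |t| = ENNReal.ofReal S * ENNReal.ofReal (|t| / S) := by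
      rw [← ENNReal.ofReal_mul hS.le]
      congr 1
      field_simp
    rw [h4, ← mul_add] at h3
    exact (ENNReal.mul_le_mul_iff_right hS0 hSt).1 h3
  have h5 : Tendsto (fun S : ℝ => (∫⁻ n, f n * den D n ∂haar) + ENNReal.ofReal (|t| / S)) atTop
      (𝓝 ((∫⁻ n, f n * den D n ∂haar) + 0)) := by
    refine Tendsto.const_add _ ?_
    have h6 : Tendsto (fun S : ℝ => |t| / S) atTop (𝓝 0) := tendsto_const_nhds.div_atTop tendsto_id
    have h7 := ENNReal.tendsto_ofReal h6
    simpa using h7
  rw [add_zero] at h5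
  exact ge_of_tendsto h5 ((eventually_gt_atTop 0).mono fun S hS => key S hS)

theorem int_eq (f : Nil → ENNReal) (hf : Measurable f) (hf1 : ∀ n, f n ≤ 1) (t : ℝ) :
    ∫⁻ n, f (ps D t n) * den D n ∂haar = ∫⁻ n, f n * den D n ∂haar := by
  apply le_antisymm (int_le D f hf hf1 t)
  have h1 := int_le D (fun n => f (ps D t n)) (hf.comp (ps_meas D t)) (fun n => hf1 _) (-t)
  have h2 : ∀ n, ps D t (ps D (-t) n) = n := by
    intro n
    rw [← (ps_flow D).2, add_neg_cancel, (ps_flow D).1]
  simp only [h2] at h1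
  exact h1

theorem ps_mp0 (t : ℝ) : MeasurePreserving (ps D t) (haar.withDensity (den D)) (haar.withDensity (den D)) := by
  refine ⟨ps_meas D t, ?_⟩
  ext E hE
  rw [Measure.map_apply (ps_meas D t) hE, withDensity_apply _ hE, withDensity_apply _ ((ps_meas D t) hE),
    ← lintegral_indicator hE, ← lintegral_indicator ((ps_meas D t) hE)]
  have h1 := int_eq D (E.indicator (fun _ => 1)) (measurable_const.indicator hE)
    (fun n => indicator_le (fun _ _ => le_rfl) n) t
  have h2 : ∀ n, (E.indicator (fun _ => (1 : ENNReal)) n) * den D n = E.indicator (den D) n := by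
    intro n
    by_cases hn : n ∈ E <;> simp [hn]
  have h3 : ∀ n, (E.indicator (fun _ => (1 : ENNReal)) (ps D t n)) * den D n =
      (ps D t ⁻¹' E).indicator (den D) n := by
    intro n
    by_cases hn : ps D t n ∈ E <;> simp [hn]
  simp only [h2, h3] at h1
  exact h1

theorem weighted_eq : weighted (al D) = (∫⁻ n, den D n ∂haar)⁻¹ • haar.withDensity (den D) := rfl

/-- the time-changed flow preserves the weighted measure -/
theorem ps_mp (t : ℝ) : MeasurePreserving (ps D t) (weighted (al D)) (weighted (al D)) := by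
  rw [weighted_eq]
  exact (ps_mp0 D t).smul_measure _

theorem mass_ne_zero : ∫⁻ n, den D n ∂haar ≠ 0 := by
  have h1 : ∫⁻ _n, ENNReal.ofReal 5 ∂haar ≤ ∫⁻ n, den D n ∂haar :=
    lintegral_mono fun n => ENNReal.ofReal_le_ofReal (al_lower D n)
  have h2 : ∫⁻ _n, ENNReal.ofReal 5 ∂haar = ENNReal.ofReal 5 := by simp
  rw [h2] at h1
  intro h
  rw [h] at h1
  simp at h1

theorem mass_ne_top : ∫⁻ n, den D n ∂haar ≠ ⊤ := by
  have h1 : ∫⁻ n, den D n ∂haar ≤ ∫⁻ _n, ENNReal.ofReal 8 ∂haar :=
    lintegral_mono fun n => ENNReal.ofReal_le_ofReal (al_upper D n)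
  have h2 : ∫⁻ _n, ENNReal.ofReal 8 ∂haar = ENNReal.ofReal 8 := by simp
  rw [h2] at h1
  exact (h1.trans_lt ENNReal.ofReal_lt_top).ne

instance : IsProbabilityMeasure (weighted (al D)) := ⟨by
  rw [weighted_eq, Measure.smul_apply, withDensity_apply _ MeasurableSet.univ, Measure.restrict_univ, smul_eq_mul]
  exact ENNReal.inv_mul_cancel (mass_ne_zero D) (mass_ne_top D)⟩

theorem weighted_ac : weighted (al D) ≪ haar := by
  rw [weighted_eq]
  exact (Measure.smul_absolutelyContinuous).trans (withDensity_absolutelyContinuous _ _)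

theorem ac_weighted : haar ≪ weighted (al D) := by
  rw [weighted_eq]
  have h1 : haar ≪ haar.withDensity (den D) := by
    apply withDensity_absolutelyContinuous' (den_meas D).aemeasurable
    refine Eventually.of_forall fun n => ?_
    have := al_pos D n
    simpa [den] using this
  refine h1.trans ?_
  intro s hs
  rw [Measure.smul_apply, smul_eq_mul, mul_eq_zero] at hs
  rcases hs with hs | hs
  · exact absurd (ENNReal.inv_eq_zero.1 hs) (mass_ne_top D)
  · exact hs

end Pool.Agent.TH286.NF
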