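import Mathlib
import Pool.Agent.TH286.NF.TC

set_option autoImplicit false

/-!
The eigenfunction of the time-changed flow.
-/

open MeasureTheory Set Filter Topology
open scoped ContDiff

namespace Pool.Agent.TH286.NF

variable {θ : ℝ} (D : Dat θ)

/-- the partial sums -/
noncomputable def gg (k : ℕ) (n : Nil) : ℝ := ∑ j ∈ Finset.range k, hh D j n

/-- their exponentials -/
noncomputable def Ek (k : ℕ) (n : Nil) : ℂ := Complex.exp ((gg D k n : ℝ) * Complex.I)

theorem gg_meas (k : ℕ) : Measurable (gg D k) := Finset.measurable_sum _ fun j _ => hh_meas D j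

theorem Ek_meas (k : ℕ) : Measurable (Ek D k) :=
  Complex.measurable_exp.comp ((Complex.measurable_ofReal.comp (gg_meas D k)).mul_const _)

theorem Ek_norm (k : ℕ) (n : Nil) : ‖Ek D k n‖ = 1 := Complex.norm_exp_ofReal_mul_I _

/-- the points where the exponentials converge -/
def Good : Set Nil := {n | ∃ L, Tendsto (fun k => Ek D k n) atTop (𝓝 L)}

theorem Good_meas : MeasurableSet (Good D) := measurableSet_exists_tendsto (Ek_meas D)

theorem exp_hh (k : ℕ) (n : Nil) (h : vv D k n ∉ Tr (D.N k)) : Complex.exp ((hh D k n : ℝ) * Complex.I) = 1 := by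
  by_cases h1 : co (vv D k n) ≤ 0
  · rw [hh_zero D k n h1]
    simp
  · have h2 : 1 / 2 ^ D.N k ≤ co (vv D k n) := by
      by_contra hc
      exact h ⟨not_le.1 h1, not_le.1 hc⟩
    rw [hh_top D k n h2]
    have h3 : (((2 * Real.pi * 4 ^ D.N k : ℝ) : ℂ) * Complex.I) = ((4 ^ D.N k : ℕ) : ℂ) * (2 * Real.pi * Complex.I) := by
      push_cast
      ring
    rw [h3, Complex.exp_nat_mul, Complex.exp_two_pi_mul_I, one_pow]

theorem Ek_succ (k : ℕ) (n : Nil) : Ek D (k + 1) n = Ek D k n * Complex.exp ((hh D k n : ℝ) * Complex.I) := by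
  unfold Ek gg
  rw [Finset.sum_range_succ, ← Complex.exp_add]
  congr 1
  push_cast
  ring

theorem Good_ae : ∀ᵐ n ∂haar, n ∈ Good D := by
  have h1 : ∑' k, haar ((vv D k) ⁻¹' Tr (D.N k)) ≠ ⊤ := by
    have h2 : ∀ k, haar ((vv D k) ⁻¹' Tr (D.N k)) ≤ ENNReal.ofReal ((1 / 2) ^ k) := by
      intro k
      rw [(vv_mp D k).measure_preimage (Tr_meas _).nullMeasurableSet]
      rw [← ENNReal.ofReal_toReal (measure_ne_top _ _)]
      apply ENNReal.ofReal_le_ofReal
      have := D.trans k
      rw [one_div_pow]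
      exact this.le
    refine ne_top_of_le_ne_top ?_ (ENNReal.tsum_le_tsum h2)
    rw [← ENNReal.ofReal_tsum_of_nonneg (fun k => by positivity) summable_geometric_two]
    exact ENNReal.ofReal_ne_top
  filter_upwards [ae_eventually_notMem h1] with n hn
  obtain ⟨K, hK⟩ := eventually_atTop.1 hn
  refine ⟨Ek D K n, ?_⟩
  apply tendsto_const_nhds.congr'
  filter_upwards [eventually_ge_atTop K] with k hk
  induction k, hk using Nat.le_induction with
  | base => rfl
  | succ k hk ih =>
    rw [Ek_succ, exp_hh D k n (hK k hk), mul_one]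
    exact ih

/-- the limit -/
noncomputable def Fl (n : Nil) : ℂ := limUnder atTop (fun k => Ek D k n)

theorem Fl_tendsto {n : Nil} (hn : n ∈ Good D) : Tendsto (fun k => Ek D k n) atTop (𝓝 (Fl D n)) :=
  tendsto_nhds_limUnder hn

/-- the eigenfunction -/
noncomputable def EF : Nil → ℂ := (Good D).indicator fun n => fourier 1 (kap n).1 * Fl D n

theorem EF_meas : Measurable (EF D) := by
  refine measurable_of_tendsto_metrizable (f := fun k => (Good D).indicator fun n => fourier 1 (kap n).1 * Ek D k n) ?_ ?_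
  · intro k
    exact (((four_meas 1).comp (measurable_fst.comp kap_meas)).mul (Ek_meas D k)).indicator (Good_meas D)
  · rw [tendsto_pi_nhds]
    intro n
    by_cases hn : n ∈ Good D
    · simp only [EF, indicator_of_mem hn]
      exact (Fl_tendsto D hn).const_mul _
    · simp only [EF, indicator_of_notMem hn]
      exact tendsto_const_nhds

theorem EF_norm {n : Nil} (hn : n ∈ Good D) : ‖EF D n‖ = 1 := by
  simp only [EF, indicator_of_mem hn]
  rw [norm_mul, four_norm, one_mul]
  have h1 := (Fl_tendsto D hn).norm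
  simp only [Ek_norm] at h1
  exact (tendsto_nhds_unique h1 tendsto_const_nhds)

theorem Ek_fl (s : ℝ) (n : Nil) (L : ℂ) (hL : Tendsto (fun k => Ek D k n) atTop (𝓝 L)) :
    Tendsto (fun k => Ek D k (fl θ s n)) atTop (𝓝 (L * Complex.exp (((AA D s n - 2 * Real.pi * s : ℝ) : ℂ) * Complex.I))) := by
  have h1 : ∀ k, Ek D k (fl θ s n) = Ek D k n *
      Complex.exp (((∑ j ∈ Finset.range k, (hh D j (fl θ s n) - hh D j n) : ℝ) : ℂ) * Complex.I) := by
    intro k
    unfold Ek gg
    rw [← Complex.exp_add, ← add_mul, ← Complex.ofReal_add]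
    congr 3
    rw [Finset.sum_sub_distrib]
    ring
  simp only [h1]
  refine hL.mul ?_
  have h2 := (hasSum_AA D s n).tendsto_sum_nat
  have h3 : Continuous (fun x : ℝ => Complex.exp ((x : ℂ) * Complex.I)) := by fun_prop
  exact (h3.tendsto _).comp h2

theorem Good_fl (s : ℝ) {n : Nil} (hn : n ∈ Good D) : fl θ s n ∈ Good D := by
  obtain ⟨L, hL⟩ := hn
  exact ⟨_, Ek_fl D s n L hL⟩

theorem EF_fl (s : ℝ) {n : Nil} (hn : n ∈ Good D) :
    EF D (fl θ s n) = Complex.exp ((AA D s n : ℂ) * Complex.I) * EF D n := by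
  simp only [EF, indicator_of_mem hn, indicator_of_mem (Good_fl D s hn)]
  have h1 : Fl D (fl θ s n) = Fl D n * Complex.exp (((AA D s n - 2 * Real.pi * s : ℝ) : ℂ) * Complex.I) :=
    tendsto_nhds_unique (Fl_tendsto D (Good_fl D s hn)) (Ek_fl D s n _ (Fl_tendsto D hn))
  have h2 : (kap (fl θ s n)).1 = (kap n).1 + (s : UC) := by
    rw [kap_fl]
    rfl
  rw [h1, h2, four_add, four_real]
  have h3 : Complex.exp ((AA D s n : ℂ) * Complex.I) =
      Complex.exp (((2 * Real.pi * (((1 : ℤ) : ℝ) * s) : ℝ) : ℂ) * Complex.I) *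
      Complex.exp (((AA D s n - 2 * Real.pi * s : ℝ) : ℂ) * Complex.I) := by
    rw [← Complex.exp_add]
    congr 1
    push_cast
    ring
  rw [h3]
  ring

theorem Good_ps (t : ℝ) {n : Nil} (hn : n ∈ Good D) : ps D t n ∈ Good D := Good_fl D _ hn

/-- the eigenfunction equation -/
theorem EF_ps (t : ℝ) {n : Nil} (hn : n ∈ Good D) :
    EF D (ps D t n) = Complex.exp ((t : ℂ) * Complex.I) * EF D n := by
  unfold ps
  rw [EF_fl D _ hn, AA_tau]

/-! ### abstract consequence -/

/-- a half-open quadrant -/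
def Qd : Set ℂ := {z | 0 < z.re ∧ 0 ≤ z.im}

theorem Qd_meas : MeasurableSet Qd :=
  (measurableSet_lt measurable_const Complex.measurable_re).inter
    (measurableSet_le measurable_const Complex.measurable_im)

/-- the rotated function -/
noncomputable def rt (F : Nil → ℂ) (s : ℝ) (n : Nil) : ℂ := Complex.exp (-(s : ℂ) * Complex.I) * F n

theorem rt_meas2 {F : Nil → ℂ} (hF : Measurable F) : Measurable (fun p : ℝ × Nil => rt F p.1 p.2) := by
  unfold rt
  refine Measurable.mul ?_ (hF.comp measurable_snd)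
  exact Complex.measurable_exp.comp (((Complex.measurable_ofReal.comp measurable_fst).neg).mul_const _)

theorem rt_per (F : Nil → ℂ) (s : ℝ) (n : Nil) : rt F (s + 2 * Real.pi) n = rt F s n := by
  unfold rt
  congr 1
  have : -(((s + 2 * Real.pi : ℝ)) : ℂ) * Complex.I = -(s : ℂ) * Complex.I - 2 * Real.pi * Complex.I := by
    push_cast
    ring
  rw [this, Complex.exp_sub, Complex.exp_two_pi_mul_I, div_one]

theorem rt_near (F : Nil → ℂ) (n : Nil) (hn : F n ∈ Qd) : ∀ᶠ s in 𝓝[<] (0 : ℝ), rt F s n ∈ Qd := by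
  obtain ⟨h1, h2⟩ := hn
  have hc : Continuous (fun s : ℝ => (rt F s n).re) := by
    unfold rt
    fun_prop
  have h3 : ∀ᶠ s in 𝓝[<] (0 : ℝ), 0 < (rt F s n).re := by
    have h4 : Tendsto (fun s : ℝ => (rt F s n).re) (𝓝[<] 0) (𝓝 ((rt F 0 n).re)) :=
      (hc.tendsto 0).mono_left nhdsWithin_le_nhds
    have h5 : rt F 0 n = F n := by
      unfold rt
      simp
    rw [h5] at h4
    exact h4.eventually (lt_mem_nhds h1)
  have h6 : ∀ᶠ s in 𝓝[<] (0 : ℝ), -(Real.pi / 2) < s ∧ s < 0 := by
    have := Ioo_mem_nhdsLT (show -(Real.pi / 2) < 0 by have := Real.pi_pos; linarith)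
    filter_upwards [this] with s hs
    exact hs
  filter_upwards [h3, h6] with s hs1 hs2
  refine ⟨hs1, ?_⟩
  have h7 : rt F s n = ((Real.cos s : ℂ) - (Real.sin s : ℂ) * Complex.I) * F n := by
    unfold rt
    congr 1
    have : -(s : ℂ) * Complex.I = ((-s : ℝ) : ℂ) * Complex.I := by push_cast; ring
    rw [this, Complex.exp_mul_I, ← Complex.ofReal_cos, ← Complex.ofReal_sin, Real.cos_neg, Real.sin_neg]
    push_cast
    ring
  rw [h7]
  simp only [Complex.mul_im, Complex.sub_re, Complex.sub_im, Complex.ofReal_re, Complex.ofReal_im,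
    Complex.mul_re, Complex.I_re, Complex.I_im]
  have h8 : 0 ≤ Real.cos s := Real.cos_nonneg_of_mem_Icc ⟨by linarith [hs2.1], by linarith [hs2.2, Real.pi_pos]⟩
  have h9 : Real.sin s ≤ 0 := Real.sin_nonpos_of_nonpos_of_neg_pi_le hs2.2.le (by linarith [hs2.1, Real.pi_pos])
  have h10 : 0 ≤ Real.cos s * (F n).im := mul_nonneg h8 h2
  have h11 : 0 ≤ (-Real.sin s) * (F n).re := mul_nonneg (by linarith) h1.le
  nlinarith

theorem not_wm (ν : Measure Nil) [IsProbabilityMeasure ν] (ψ : ℝ → Nil → Nil) (hψ : IsFlow ψ)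
    (F : Nil → ℂ) (hF : Measurable F) (G : Set Nil) (hG : MeasurableSet G)
    (hGi : ∀ t, ∀ n ∈ G, ψ t n ∈ G) (hFe : ∀ t, ∀ n ∈ G, F (ψ t n) = Complex.exp ((t : ℂ) * Complex.I) * F n)
    (h0 : 0 < ν.real (G ∩ F ⁻¹' Qd)) (h1 : ν.real (G ∩ F ⁻¹' Qd) < 1) :
    ¬ WeaklyMixing ν ψ ∧ ¬ Mixing ν ψ := by
  set A : Set Nil := G ∩ F ⁻¹' Qd with hA
  have hAm : MeasurableSet A := hG.inter (hF Qd_meas)
  set a := ν.real A with ha
  -- the image
  have himg : ∀ s, ψ s '' A = {n | n ∈ G ∧ rt F s n ∈ Qd} := by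
    intro s
    ext n
    constructor
    · rintro ⟨m, ⟨hmG, hmF⟩, rfl⟩
      refine ⟨hGi s m hmG, ?_⟩
      unfold rt
      rw [hFe s m hmG, ← mul_assoc, ← Complex.exp_add]
      have : -(s : ℂ) * Complex.I + (s : ℂ) * Complex.I = 0 := by ring
      rw [this, Complex.exp_zero, one_mul]
      exact hmF
    · rintro ⟨hn1, hn2⟩
      refine ⟨ψ (-s) n, ⟨hGi _ _ hn1, ?_⟩, ?_⟩
      · show F (ψ (-s) n) ∈ Qd
        rw [hFe _ _ hn1]
        unfold rt at hn2
        push_cast
        exact hn2
      · rw [← hψ.2, add_neg_cancel, hψ.1]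
  set c : ℝ → ℝ := fun s => ν.real (ψ s '' A ∩ A) with hc
  set E : Set (ℝ × Nil) := {p | rt F p.1 p.2 ∈ Qd ∧ p.2 ∈ A} with hE
  have hEm : MeasurableSet E := ((rt_meas2 hF) Qd_meas).inter (measurable_snd hAm)
  have hcE : ∀ s, ψ s '' A ∩ A = Prod.mk s ⁻¹' E := by
    intro s
    rw [himg]
    ext n
    constructor
    · rintro ⟨⟨h2, h3⟩, h4⟩
      exact ⟨h3, h4⟩
    · rintro ⟨h3, h4⟩
      exact ⟨⟨h4.1, h3⟩, h4⟩
  have hcm : Measurable c := by
    have h2 : Measurable (fun s => ν (Prod.mk s ⁻¹' E)) := measurable_measure_prodMk_left hEm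
    have h3 : c = fun s => (ν (Prod.mk s ⁻¹' E)).toReal := by
      funext s
      simp only [hc, hcE]
      rfl
    rw [h3]
    exact h2.ennreal_toReal
  have hcper : ∀ s, c (s + 2 * Real.pi) = c s := by
    intro s
    simp only [hc, himg]
    congr 2
    ext n
    simp only [mem_ofPred_eq, rt_per]
  have hc0 : ∀ s, 0 ≤ c s := fun s => measureReal_nonneg
  have hc1 : ∀ s, c s ≤ 1 := fun s => measureReal_le_one
  have hlim : Tendsto c (𝓝[<] 0) (𝓝 a) := by
    have h2 : ∀ s, c s = ∫ n, (Prod.mk s ⁻¹' E).indicator (fun _ => (1 : ℝ)) n ∂ν := by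
      intro s
      rw [integral_indicator_const _ (measurable_prodMk_left hEm)]
      simp only [hc, hcE, smul_eq_mul, mul_one]
    have h3 : a = ∫ n, A.indicator (fun _ => (1 : ℝ)) n ∂ν := by
      rw [integral_indicator_const _ hAm, smul_eq_mul, mul_one]
    rw [h3]
    have h4 : c = fun s => ∫ n, (Prod.mk s ⁻¹' E).indicator (fun _ => (1 : ℝ)) n ∂ν := funext h2
    rw [h4]
    apply tendsto_integral_filter_of_dominated_convergence (fun _ => (1 : ℝ))
    · refine Eventually.of_forall fun s => ?_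
      exact (measurable_const.indicator (measurable_prodMk_left hEm)).aestronglyMeasurable
    · refine Eventually.of_forall fun s => Eventually.of_forall fun n => ?_
      by_cases hn : n ∈ Prod.mk s ⁻¹' E
      · simp [indicator_of_mem hn]
      · simp [indicator_of_notMem hn]
    · exact integrable_const _
    · refine Eventually.of_forall fun n => ?_
      by_cases hn : n ∈ A
      · rw [indicator_of_mem hn]
        apply tendsto_const_nhds.congr'
        filter_upwards [rt_near F n hn.2] with s hs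
        rw [indicator_of_mem]
        exact ⟨hs, hn⟩
      · rw [indicator_of_notMem hn]
        apply tendsto_const_nhds.congr'
        refine Eventually.of_forall fun s => ?_
        show (0 : ℝ) = (Prod.mk s ⁻¹' E).indicator (fun _ => (1 : ℝ)) n
        rw [indicator_of_notMem]
        exact fun h => hn h.2
  have haa : a * a < a := by nlinarith
  constructor
  · intro hwm
    have h2 := hwm A A hAm hAm
    set g : ℝ → ℝ := fun s => |c s - a * a| with hg
    have hgm : Measurable g := (hcm.sub_const _).abs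
    have hgp : Function.Periodic g (2 * Real.pi) := by
      intro s
      simp only [hg, hcper]
    have hgb : ∀ s, |g s| ≤ 2 := by
      intro s
      simp only [hg, abs_abs]
      rw [abs_le]
      constructor <;> nlinarith [hc0 s, hc1 s]
    have hgi : ∀ x y, IntervalIntegrable g volume x y := by
      intro x y
      refine (intervalIntegrable_const (c := (2 : ℝ))).mono_fun hgm.aestronglyMeasurable
        (Eventually.of_forall fun s => ?_)
      show ‖g s‖ ≤ ‖(2 : ℝ)‖
      rw [Real.norm_eq_abs, Real.norm_eq_abs, abs_two]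
      exact hgb s
    have h3 : Tendsto (fun m : ℕ => ((m : ℝ) + 1) * (2 * Real.pi)) atTop atTop := by
      apply Tendsto.atTop_mul_const (by have := Real.pi_pos; positivity)
      exact tendsto_atTop_add_const_right _ _ tendsto_natCast_atTop_atTop
    have h4 := h2.comp h3
    have h5 : ∀ m : ℕ, ((fun t : ℝ => (1 / t) * ∫ s in (0 : ℝ)..t, |ν.real (ψ s '' A ∩ A) - ν.real A * ν.real A|) ∘
        (fun m : ℕ => ((m : ℝ) + 1) * (2 * Real.pi))) m = 1 / (2 * Real.pi) * ∫ s in (0 : ℝ)..2 * Real.pi, g s := by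
      intro m
      show (1 / (((m : ℝ) + 1) * (2 * Real.pi))) * ∫ s in (0 : ℝ)..(((m : ℝ) + 1) * (2 * Real.pi)), g s = _
      have h6 := hgp.intervalIntegral_add_zsmul_eq ((m : ℤ) + 1) 0 hgi
      have h7 : (0 : ℝ) + ((m : ℤ) + 1) • (2 * Real.pi) = ((m : ℝ) + 1) * (2 * Real.pi) := by
        rw [zero_add, zsmul_eq_mul]
        push_cast
        ring
      rw [h7, zero_add] at h6
      rw [h6, zsmul_eq_mul]
      have h8 : (0 : ℝ) < (m : ℝ) + 1 := by positivity
      have := Real.pi_pos
      push_cast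
      field_simp
    have h6 : Tendsto (fun _ : ℕ => 1 / (2 * Real.pi) * ∫ s in (0 : ℝ)..2 * Real.pi, g s) atTop (𝓝 0) :=
      h4.congr h5
    have h7 : 1 / (2 * Real.pi) * ∫ s in (0 : ℝ)..2 * Real.pi, g s = 0 :=
      tendsto_nhds_unique tendsto_const_nhds h6
    have hpi := Real.pi_pos
    have h8 : ∫ s in (0 : ℝ)..2 * Real.pi, g s = 0 := by
      rcases mul_eq_zero.1 h7 with h | h
      · have : 0 < 1 / (2 * Real.pi) := by positivity
        linarith
      · exact h
    -- lower bound near `2π`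
    set κ := (a - a * a) / 2 with hκ
    have hκ0 : 0 < κ := by
      rw [hκ]
      linarith
    have h9 : ∀ᶠ s in 𝓝[<] (0 : ℝ), a - κ < c s := hlim.eventually (lt_mem_nhds (by linarith))
    obtain ⟨l, hl, hls⟩ := mem_nhdsLT_iff_exists_Ioo_subset.1 h9
    set δ := min (-l) 1 with hδ
    have hδ0 : 0 < δ := lt_min (by simpa using hl) one_pos
    have hδ1 : δ ≤ 1 := min_le_right _ _
    have hδl : δ ≤ -l := min_le_left _ _
    have h10 : ∀ s ∈ Ioo (2 * Real.pi - δ) (2 * Real.pi), κ ≤ g s := by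
      intro s hs
      have h11 : s - 2 * Real.pi ∈ Ioo l 0 := ⟨by linarith [hs.1], by linarith [hs.2]⟩
      have h12 : a - κ < c (s - 2 * Real.pi) := hls h11
      have h13 : c s = c (s - 2 * Real.pi) := by
        rw [← hcper (s - 2 * Real.pi), sub_add_cancel]
      rw [← h13] at h12
      refine le_trans ?_ (le_abs_self _)
      linarith
    have hpi3 := Real.pi_gt_three
    have h11 : ∫ s in (0 : ℝ)..2 * Real.pi, g s = (∫ s in (0 : ℝ)..(2 * Real.pi - δ), g s) +
        ∫ s in (2 * Real.pi - δ)..(2 * Real.pi), g s :=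
      (intervalIntegral.integral_add_adjacent_intervals (hgi _ _) (hgi _ _)).symm
    have h12 : 0 ≤ ∫ s in (0 : ℝ)..(2 * Real.pi - δ), g s :=
      intervalIntegral.integral_nonneg (by linarith) fun s _ => abs_nonneg _
    have h13 : ∫ _s in (2 * Real.pi - δ)..(2 * Real.pi), κ ≤ ∫ s in (2 * Real.pi - δ)..(2 * Real.pi), g s := by
      apply intervalIntegral.integral_mono_on_of_le_Ioo (by linarith) intervalIntegrable_const (hgi _ _)
      exact h10
    rw [intervalIntegral.integral_const, smul_eq_mul] at h13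
    have h14 : 0 < δ * κ := mul_pos hδ0 hκ0
    linarith
  · intro hm
    have h2 := hm A A hAm hAm
    have h3 : Tendsto (fun m : ℕ => (m : ℝ) * (2 * Real.pi)) atTop atTop :=
      Tendsto.atTop_mul_const (by have := Real.pi_pos; positivity) tendsto_natCast_atTop_atTop
    have h4 := h2.comp h3
    have h5 : ∀ m : ℕ, ((fun t : ℝ => ν.real (ψ t '' A ∩ A)) ∘ (fun m : ℕ => (m : ℝ) * (2 * Real.pi))) m = a := by
      intro m
      show c ((m : ℝ) * (2 * Real.pi)) = a
      have h6 : Function.Periodic c (2 * Real.pi) := hcper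
      have h7 : c ((m : ℝ) * (2 * Real.pi)) = c 0 := by
        have := h6.nat_mul_eq m
        exact this
      rw [h7]
      have h8 : ψ 0 '' A = A := by
        have : ψ 0 = id := funext hψ.1
        rw [this, image_id]
      show ν.real (ψ 0 '' A ∩ A) = a
      rw [h8, inter_self]
    have h6 : Tendsto (fun _ : ℕ => a) atTop (𝓝 (a * a)) := h4.congr h5
    have h7 : a = a * a := tendsto_nhds_unique tendsto_const_nhds h6
    linarith

end Pool.Agent.TH286.NF
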