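import Mathlib
import Pool.Agent.TH286.NF.EF

set_option autoImplicit false

/-!
The conclusion.
-/

open MeasureTheory Set Filter Topology
open scoped ContDiff

namespace Pool.Agent.TH286.NF

/-- the four rotations -/
def Rw : Set ℂ := {1, Complex.I, -1, -Complex.I}

theorem cover (z : ℂ) (hz : z ≠ 0) : ∃ w ∈ Rw, w * z ∈ Qd := by
  have hab : z.re ≠ 0 ∨ z.im ≠ 0 := by
    by_contra h
    push Not at h
    exact hz (Complex.ext h.1 h.2)
  by_cases h1 : 0 < z.re ∧ 0 ≤ z.im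
  · exact ⟨1, by simp [Rw], by simpa [Qd] using h1⟩
  by_cases h2 : z.im < 0 ∧ 0 ≤ z.re
  · exact ⟨Complex.I, by simp [Rw], by simpa [Qd] using h2⟩
  by_cases h3 : z.re < 0 ∧ z.im ≤ 0
  · exact ⟨-1, by simp [Rw], by simpa [Qd] using h3⟩
  by_cases h4 : 0 < z.im ∧ z.re ≤ 0
  · exact ⟨-Complex.I, by simp [Rw], by simpa [Qd] using h4⟩
  exfalso
  rw [not_and_or] at h1 h2 h3 h4
  simp only [not_lt, not_le] at h1 h2 h3 h4
  rcases lt_trichotomy z.re 0 with a | a | a
  · rcases h3 with h | h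
    · linarith
    · rcases h4 with h' | h' <;> linarith
  · rcases hab with h | h
    · exact h a
    · rcases lt_or_gt_of_ne h with b | b
      · rcases h2 with h' | h' <;> linarith
      · rcases h4 with h' | h' <;> linarith
  · rcases h1 with h | h
    · linarith
    · rcases h2 with h' | h' <;> linarith

theorem Qd_contra (z : ℂ) (A : ℝ) (hA : Real.cos A < 0) (h1 : z ∈ Qd)
    (h2 : Complex.exp ((A : ℂ) * Complex.I) * z ∈ Qd) : False := by
  obtain ⟨a1, a2⟩ := h1
  obtain ⟨b1, b2⟩ := h2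
  rw [Complex.exp_mul_I, ← Complex.ofReal_cos, ← Complex.ofReal_sin] at b1 b2
  simp only [Complex.mul_im, Complex.mul_re, Complex.add_re, Complex.add_im, Complex.ofReal_re, Complex.ofReal_im,
    Complex.I_re, Complex.I_im] at b1 b2
  ring_nf at b1 b2
  have c1 : 0 < z.re * (Real.cos A * z.re - Real.sin A * z.im) := mul_pos a1 (by linarith)
  have c2 : 0 ≤ z.im * (Real.cos A * z.im + z.re * Real.sin A) := mul_nonneg a2 (by linarith)
  have c3 : 0 < Real.cos A * (z.re ^ 2 + z.im ^ 2) := by nlinarith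
  have c4 : 0 ≤ z.re ^ 2 + z.im ^ 2 := by positivity
  nlinarith

variable {θ : ℝ} (D : Dat θ)

theorem exists_rot : ∃ w ∈ Rw, 0 < (weighted (al D)).real (Good D ∩ (fun n => w * EF D n) ⁻¹' Qd) ∧
    (weighted (al D)).real (Good D ∩ (fun n => w * EF D n) ⁻¹' Qd) < 1 := by
  set ν := weighted (al D) with hν
  by_contra hc
  push Not at hc
  have hm : ∀ w : ℂ, MeasurableSet (Good D ∩ (fun n => w * EF D n) ⁻¹' Qd) := fun w =>
    (Good_meas D).inter ((measurable_const.mul (EF_meas D)) Qd_meas)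
  -- some rotation has full measure
  have h1 : ∃ w ∈ Rw, 0 < ν.real (Good D ∩ (fun n => w * EF D n) ⁻¹' Qd) := by
    by_contra h
    push Not at h
    have h2 : ∀ w ∈ Rw, ν (Good D ∩ (fun n => w * EF D n) ⁻¹' Qd) = 0 := by
      intro w hw
      have h3 := le_antisymm (h w hw) measureReal_nonneg
      exact (measureReal_eq_zero_iff (measure_ne_top _ _)).1 h3
    have h3 : ν (⋃ w ∈ Rw, Good D ∩ (fun n => w * EF D n) ⁻¹' Qd) = 0 := by
      rw [measure_biUnion_null_iff (by unfold Rw; exact Set.Countable.insert _ (Set.Countable.insert _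
        (Set.Countable.insert _ (Set.countable_singleton _))))]
      exact h2
    have h4 : Good D ⊆ ⋃ w ∈ Rw, Good D ∩ (fun n => w * EF D n) ⁻¹' Qd := by
      intro n hn
      have h5 : EF D n ≠ 0 := by
        intro h6
        have := EF_norm D hn
        rw [h6, norm_zero] at this
        exact zero_ne_one this
      obtain ⟨w, hw, hwz⟩ := cover _ h5
      exact mem_biUnion hw ⟨hn, hwz⟩
    have h5 : ν (Good D) = 0 := measure_mono_null h4 h3
    have h6 : haar (Good D) = 0 := ac_weighted D h5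
    have h7 : haar (Good D) = 1 := (mem_ae_iff_prob_eq_one (Good_meas D)).1 (Good_ae D)
    rw [h7] at h6
    exact one_ne_zero h6
  obtain ⟨w, hw, hw0⟩ := h1
  have h2 : ν.real (Good D ∩ (fun n => w * EF D n) ⁻¹' Qd) = 1 :=
    le_antisymm measureReal_le_one (hc w hw hw0)
  have h3 : ∀ᵐ n ∂ν, n ∈ Good D ∩ (fun n => w * EF D n) ⁻¹' Qd := by
    apply (mem_ae_iff_prob_eq_one (hm w)).2
    rw [← ENNReal.ofReal_toReal (measure_ne_top ν _)]
    rw [Measure.real] at h2
    rw [h2, ENNReal.ofReal_one]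
  have h4 : ∀ᵐ n ∂haar, n ∈ Good D ∩ (fun n => w * EF D n) ⁻¹' Qd := (ac_weighted D).ae_le h3
  have h5 : ∀ᵐ n ∂haar, fl θ (1 / 2) n ∈ Good D ∩ (fun n => w * EF D n) ⁻¹' Qd :=
    (fl_mp θ (1 / 2)).quasiMeasurePreserving.ae h4
  obtain ⟨n, hn1, hn2⟩ := (h4.and h5).exists
  have h6 : w * EF D (fl θ (1 / 2) n) = Complex.exp ((AA D (1 / 2) n : ℂ) * Complex.I) * (w * EF D n) := by
    rw [EF_fl D _ hn1.1]
    ring
  have h7 := hn2.2
  simp only [mem_preimage] at h7
  rw [h6] at h7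
  refine Qd_contra (w * EF D n) (AA D (1 / 2) n) ?_ hn1.2 h7
  have h8 := abs_le.1 (AA_bd D (1 / 2) n)
  rw [abs_of_pos (by norm_num : (0 : ℝ) < 1 / 2)] at h8
  have hpi := Real.pi_gt_three
  exact Real.cos_neg_of_pi_div_two_lt_of_lt (by linarith [h8.1]) (by linarith [h8.2])

theorem not_mixing : ¬ WeaklyMixing (weighted (al D)) (ps D) ∧ ¬ Mixing (weighted (al D)) (ps D) := by
  obtain ⟨w, _, h0, h1⟩ := exists_rot D
  refine not_wm (weighted (al D)) (ps D) (ps_flow D) (fun n => w * EF D n) (measurable_const.mul (EF_meas D))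
    (Good D) (Good_meas D) (fun t n hn => Good_ps D t hn) ?_ h0 h1
  intro t n hn
  show w * EF D (ps D t n) = _
  rw [EF_ps D t hn]
  ring

theorem not_central (θ : ℝ) : NotCentral 1 θ 0 := by
  refine ⟨⟨0, 1, 0⟩, fun h => ?_⟩
  have := congrArg Heis.z h
  simp [Heis.mul_def, Heis.exp] at this

/-- The answer to both questions is no for Heisenberg nilflows with direction `(1, θ, 0)`, `θ` generic. -/
theorem main : ∀ᶠ θ : ℝ in residual ℝ, UniquelyErgodic (nilflow 1 θ 0) ∧ NotCentral 1 θ 0 ∧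
    ∃ α : Nil → ℝ, Smooth α ∧ (∀ x, 0 < α x) ∧ ¬ MeasurablyTrivial (nilflow 1 θ 0) α ∧
      ∃ ψ : ℝ → Nil → Nil, IsTimeChange (nilflow 1 θ 0) ψ α ∧ IsFlow ψ ∧
        (∀ t, MeasurePreserving (ψ t) (weighted α) (weighted α)) ∧
        ¬ WeaklyMixing (weighted α) ψ ∧ ¬ Mixing (weighted α) ψ := by
  filter_upwards [resid_dat] with θ hθ
  obtain ⟨hirr, ⟨D⟩⟩ := hθ
  exact ⟨ue hirr, not_central θ, al D, al_smooth D, al_pos D, nontriv D, ps D, ps_tc D, ps_flow D, ps_mp D,
    (not_mixing D).1, (not_mixing D).2⟩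

end Pool.Agent.TH286.NF
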